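import Pool.Agent.H54.Kim.Main

set_option maxHeartbeats 1000000

open Finset Filter Topology

namespace Pool.Agent.H54.Kim

lemma LL_le_log (m : ℕ) (h : 1 ≤ Real.log m) (hm : 1 ≤ m) : (LL m : ℝ) ≤ 3 * Real.log m := by
  unfold LL
  push_cast
  have h1 : (2 : ℝ) ^ (Nat.log 2 m) ≤ m := by exact_mod_cast Nat.pow_log_le_self 2 (by omega)
  have h2 : (Nat.log 2 m : ℝ) * Real.log 2 ≤ Real.log m := by
    rw [← Real.log_pow]
    exact Real.log_le_log (by positivity) h1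
  have h3 := Real.log_two_gt_d9
  have h4 : (0 : ℝ) ≤ Nat.log 2 m := Nat.cast_nonneg _
  nlinarith

lemma log_le_LL (m : ℕ) (hm : 1 ≤ m) : Real.log m ≤ LL m := by
  unfold LL
  have h1 : m < 2 ^ (Nat.log 2 m + 1) := Nat.lt_pow_succ_log_self (by norm_num) m
  have h2 : (m : ℝ) ≤ (2 : ℝ) ^ (Nat.log 2 m + 1) := by exact_mod_cast h1.le
  have h3 : Real.log m ≤ ((Nat.log 2 m + 1 : ℕ) : ℝ) * Real.log 2 := by
    rw [← Real.log_pow]
    exact Real.log_le_log (by exact_mod_cast hm) h2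
  have h4 := Real.log_two_lt_d9
  have h5 : (0 : ℝ) ≤ ((Nat.log 2 m + 1 : ℕ) : ℝ) := Nat.cast_nonneg _
  nlinarith

lemma eventually_big : ∀ᶠ m : ℕ in atTop, Big m := by
  have t4 : ∀ᶠ m : ℕ in atTop, ‖Real.log (m : ℝ) ^ 4‖ ≤ (1 / 15000 ^ 2 : ℝ) * ‖(id (m : ℝ) : ℝ)‖ :=
    tendsto_natCast_atTop_atTop.eventually
      ((Real.isLittleO_pow_log_id_atTop (n := 4)).def (by norm_num))
  have t10 : ∀ᶠ m : ℕ in atTop, ‖Real.log (m : ℝ) ^ 10‖ ≤
      (1 / (2 * 11000 ^ 5 * 3 ^ 10) : ℝ) * ‖(id (m : ℝ) : ℝ)‖ :=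
    tendsto_natCast_atTop_atTop.eventually
      ((Real.isLittleO_pow_log_id_atTop (n := 10)).def (by norm_num))
  filter_upwards [t4, t10, eventually_ge_atTop (10 ^ 14)] with m h4 h10 hm
  have hm' : (10 ^ 14 : ℝ) ≤ m := by exact_mod_cast hm
  have hm0 : (0 : ℝ) < m := by
    have : (0 : ℝ) < 10 ^ 14 := by norm_num
    linarith
  have hm1 : 1 ≤ m := by
    have : 1 ≤ 10 ^ 14 := by norm_num
    omega
  have hℓ1 : 1 ≤ Real.log m := by
    rw [← Real.log_exp 1]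
    apply Real.log_le_log (Real.exp_pos _)
    have := Real.exp_one_lt_d9
    have : (3 : ℝ) ≤ 10 ^ 14 := by norm_num
    linarith
  have hℓ0 : 0 < Real.log m := by linarith
  have hL := LL_le_log m hℓ1 hm1
  have hL2 := log_le_LL m hm1
  rw [id, Real.norm_of_nonneg hm0.le, Real.norm_of_nonneg (by positivity)] at h4 h10
  refine ⟨?_, ?_, ?_, ?_, hℓ1, hL2, ?_, ?_⟩
  · have : 10 ≤ 10 ^ 14 := by norm_num
    omega
  · -- h1
    have e1 : 5000 * Real.log m * LL m ≤ 15000 * Real.log m ^ 2 := by nlinarith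
    refine le_trans e1 ?_
    apply Real.le_sqrt_of_sq_le
    have : (15000 * Real.log m ^ 2) ^ 2 = 15000 ^ 2 * Real.log m ^ 4 := by ring
    rw [this]
    have := mul_le_mul_of_nonneg_left h4 (by norm_num : (0 : ℝ) ≤ 15000 ^ 2)
    linarith
  · -- h2
    set t : ℝ := Real.exp (Real.log m / 4) with ht
    have ht0 : 0 < t := Real.exp_pos _
    have ht4 : t ^ 4 = m := by
      rw [ht, ← Real.exp_nat_mul]
      push_cast
      rw [mul_div_cancel₀ _ (by norm_num : (4 : ℝ) ≠ 0), Real.exp_log hm0]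
    have ht2 : t ^ 2 = Real.sqrt m := by
      rw [← ht4]
      rw [show t ^ 4 = (t ^ 2) ^ 2 by ring, Real.sqrt_sq (by positivity)]
    have htbig : 3000 ≤ t := by
      by_contra hcon
      push Not at hcon
      have : t ^ 4 < 3000 ^ 4 := pow_lt_pow_left₀ hcon ht0.le (by norm_num)
      rw [ht4] at this
      have : (3000 : ℝ) ^ 4 ≤ 10 ^ 14 := by norm_num
      linarith
    rw [← ht2]
    have e1 : 100 * (LL m : ℝ) * t ≤ 300 * Real.log m * t := by
      have := mul_le_mul_of_nonneg_right hL ht0.le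
      nlinarith
    have e2 : 300 * t + 2 ≤ t ^ 2 / 8 := by nlinarith
    have e3 := mul_le_mul_of_nonneg_left e2 hℓ0.le
    nlinarith
  · -- h3
    have e1 := Real.pow_div_factorial_le_exp ((m : ℝ) / 100) (by positivity) 3
    have e2 : Real.exp (-(m : ℝ) / 100) = 1 / Real.exp ((m : ℝ) / 100) := by
      rw [neg_div, Real.exp_neg, one_div]
    rw [e2]
    rw [mul_one_div, div_le_div_iff₀ (Real.exp_pos _) (by norm_num)]
    have e3 : ((3 : ℕ).factorial : ℝ) = 6 := by norm_num [Nat.factorial]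
    rw [e3] at e1
    have e4 : 2 * (m : ℝ) ^ 2 * 100 ≤ 1 * (((m : ℝ) / 100) ^ 3 / 6) := by
      have : (m : ℝ) ^ 2 * (1200000000 : ℝ) ≤ (m : ℝ) ^ 2 * m := by
        apply mul_le_mul_of_nonneg_left _ (by positivity)
        have : (1200000000 : ℝ) ≤ 10 ^ 14 := by norm_num
        linarith
      nlinarith
    linarith
  · -- h6
    rw [div_le_div_iff₀ (by positivity) (by norm_num)]
    have : (20 : ℝ) ≤ m := by
      have : (20 : ℝ) ≤ 10 ^ 14 := by norm_num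
      linarith
    nlinarith
  · -- h7
    have e1 : (LL m : ℝ) ^ 10 ≤ 3 ^ 10 * Real.log m ^ 10 := by
      rw [← mul_pow]
      exact pow_le_pow_left₀ (Nat.cast_nonneg _) hL 10
    calc 2 * (11000 : ℝ) ^ 5 * (LL m : ℝ) ^ 10 ≤ 2 * 11000 ^ 5 * (3 ^ 10 * Real.log m ^ 10) := by
          gcongr
      _ = (2 * 11000 ^ 5 * 3 ^ 10) * Real.log m ^ 10 := by ring
      _ ≤ (2 * 11000 ^ 5 * 3 ^ 10) * (1 / (2 * 11000 ^ 5 * 3 ^ 10) * m) := by gcongr
      _ = m := by
          rw [← mul_assoc, mul_one_div_cancel (by norm_num), one_mul]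

end Pool.Agent.H54.Kim
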