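import Pool.Agent.H54.Kim.Tail

/-!
# Random graph, union bound for the square-sum estimate
-/

set_option maxHeartbeats 1000000

open Finset

namespace Pool.Agent.H54.Kim

/-- the target bound for a set of size `r` -/
noncomputable def TT (m r : ℕ) : ℝ := 176 * ((m : ℝ) / 200 * r + 1 / 40000 * (r : ℝ) ^ 2)

/-- single set, uncurried version -/
lemma set_tail' (m : ℕ) (hm : Big m) [NeZero (200 * m)] (S : Fin (m ^ 2) → Finset (Fin (m ^ 2)))
    (c : Fin (200 * m)) (r : ℕ) (hr1 : 1 ≤ r) (hr2 : r ≤ yy m) (hS : ∀ v, #(S v) ≤ r) :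
    pr (fun h : Fin (m ^ 2) × Fin (m ^ 2) → Fin (200 * m) =>
      TT m r ≤ ∑ v, (min (#{j ∈ S v | h (v, j) = c} : ℝ) ((m : ℝ) / 50)) ^ 2) ≤
      Real.exp (-(4 * Real.log m * r)) := by
  have := pr_equiv (Equiv.curry (Fin (m ^ 2)) (Fin (m ^ 2)) (Fin (200 * m)))
    (fun h : Fin (m ^ 2) → Fin (m ^ 2) → Fin (200 * m) =>
      176 * ((m : ℝ) / 200 * r + 1 / 40000 * (r : ℝ) ^ 2) ≤
        ∑ v, (min (#{j ∈ S v | h v j = c} : ℝ) ((m : ℝ) / 50)) ^ 2)
  refine le_trans (le_of_eq ?_) (set_tail m hm S c r hr1 hr2 hS)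
  rw [← this]
  rfl

/-- union bound over sets `M` -/
lemma union_tail (m : ℕ) (hm : Big m) [NeZero (200 * m)]
    (R : Fin (m ^ 2) → Fin (m ^ 2) → Prop) [DecidableRel R]
    (c : Fin (200 * m)) :
    pr (fun h : Fin (m ^ 2) × Fin (m ^ 2) → Fin (200 * m) => ∃ M ∈ (univ.filter
      fun M : Finset (Fin (m ^ 2)) => 1 ≤ #M ∧ #M ≤ yy m),
      TT m #M ≤ ∑ v, (min (#{j ∈ {j ∈ M | R v j} | h (v, j) = c} : ℝ) ((m : ℝ) / 50)) ^ 2) ≤
      2 / (m : ℝ) ^ 2 := by
  have hm10 : (10 : ℝ) ≤ m := by exact_mod_cast hm.m_ge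
  have hm0 : (0 : ℝ) < m := by linarith
  refine le_trans (pr_exists_le _ _) ?_
  have h1 : ∀ M ∈ (univ.filter fun M : Finset (Fin (m ^ 2)) => 1 ≤ #M ∧ #M ≤ yy m),
      pr (fun h : Fin (m ^ 2) × Fin (m ^ 2) → Fin (200 * m) =>
      TT m #M ≤ ∑ v, (min (#{j ∈ {j ∈ M | R v j} | h (v, j) = c} : ℝ) ((m : ℝ) / 50)) ^ 2)
      ≤ (1 / (m : ℝ) ^ 4) ^ #M := by
    intro M hM
    rw [mem_filter] at hM
    refine le_trans (set_tail' m hm (fun v => {j ∈ M | R v j}) c #M hM.2.1 hM.2.2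
      (fun v => card_filter_le _ _)) ?_
    have : (1 / (m : ℝ) ^ 4) = Real.exp (-(4 * Real.log m)) := by
      rw [Real.exp_neg, show 4 * Real.log m = ((4 : ℕ) : ℝ) * Real.log m by norm_num,
        Real.exp_nat_mul, Real.exp_log hm0]
      simp
    rw [this, ← Real.exp_nat_mul]
    apply Real.exp_le_exp.2
    apply le_of_eq
    ring
  refine le_trans (sum_le_sum h1) ?_
  have h2 : ∑ M ∈ (univ.filter fun M : Finset (Fin (m ^ 2)) => 1 ≤ #M ∧ #M ≤ yy m),
      (1 / (m : ℝ) ^ 4) ^ #M ≤ (1 / (m : ℝ) ^ 4 + 1) ^ (m ^ 2) - 1 := by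
    have h3 := Fintype.sum_pow_mul_eq_add_pow (Fin (m ^ 2)) (1 / (m : ℝ) ^ 4) 1
    rw [Fintype.card_fin] at h3
    rw [← h3]
    have h4 : ∑ M : Finset (Fin (m ^ 2)), (1 / (m : ℝ) ^ 4) ^ #M * 1 ^ (m ^ 2 - #M)
        = 1 + ∑ M ∈ univ.erase (∅ : Finset (Fin (m ^ 2))), (1 / (m : ℝ) ^ 4) ^ #M := by
      rw [← add_sum_erase _ _ (mem_univ (∅ : Finset (Fin (m ^ 2))))]
      simp
    rw [h4]
    have h5 : ∑ M ∈ (univ.filter fun M : Finset (Fin (m ^ 2)) => 1 ≤ #M ∧ #M ≤ yy m),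
      (1 / (m : ℝ) ^ 4) ^ #M ≤ ∑ M ∈ univ.erase (∅ : Finset (Fin (m ^ 2))), (1 / (m : ℝ) ^ 4) ^ #M := by
      apply sum_le_sum_of_subset_of_nonneg
      · intro M hM
        rw [mem_filter] at hM
        rw [mem_erase]
        refine ⟨?_, mem_univ _⟩
        rintro rfl
        simp at hM
      · intro M _ _
        positivity
    linarith
  refine le_trans h2 ?_
  have h6 : (1 / (m : ℝ) ^ 4 + 1) ^ (m ^ 2) ≤ Real.exp (1 / (m : ℝ) ^ 2) := by
    calc (1 / (m : ℝ) ^ 4 + 1) ^ (m ^ 2) ≤ (Real.exp (1 / (m : ℝ) ^ 4)) ^ (m ^ 2) := by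
          apply pow_le_pow_left₀ (by positivity)
          exact Real.add_one_le_exp _
      _ = Real.exp (1 / (m : ℝ) ^ 2) := by
          rw [← Real.exp_nat_mul]
          congr 1
          push_cast
          field_simp
  have h7 : Real.exp (1 / (m : ℝ) ^ 2) ≤ 1 + 2 * (1 / (m : ℝ) ^ 2) := by
    have h8 : 0 ≤ 1 / (m : ℝ) ^ 2 := by positivity
    have h9 : 1 / (m : ℝ) ^ 2 ≤ 1 := by
      rw [div_le_one (by positivity)]
      nlinarith
    have := Real.abs_exp_sub_one_le (x := 1 / (m : ℝ) ^ 2) (by rw [abs_of_nonneg h8]; exact h9)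
    rw [abs_of_nonneg h8] at this
    have h10 := le_abs_self (Real.exp (1 / (m : ℝ) ^ 2) - 1)
    linarith
  have h11 : 2 / (m : ℝ) ^ 2 = 2 * (1 / (m : ℝ) ^ 2) := by ring
  linarith

/-- degree bound -/
lemma deg_tail (m : ℕ) (hm : Big m) [NeZero (200 * m)]
    (R : Fin (m ^ 2) → Fin (m ^ 2) → Prop) [DecidableRel R]
    (c : Fin (200 * m)) :
    pr (fun h : Fin (m ^ 2) × Fin (m ^ 2) → Fin (200 * m) => ∃ v ∈ (univ : Finset (Fin (m ^ 2))),
      ((m : ℝ) / 50) < #{j ∈ {j ∈ univ | R v j} | h (v, j) = c}) ≤ 1 / 100 := by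
  have hm10 : (10 : ℝ) ≤ m := by exact_mod_cast hm.m_ge
  have hm0 : (0 : ℝ) < m := by linarith
  refine le_trans (pr_exists_le _ _) ?_
  have h1 : ∀ v ∈ (univ : Finset (Fin (m ^ 2))),
      pr (fun h : Fin (m ^ 2) × Fin (m ^ 2) → Fin (200 * m) =>
        ((m : ℝ) / 50) < #{j ∈ {j ∈ univ | R v j} | h (v, j) = c}) ≤ Real.exp (-(m : ℝ) / 100) := by
    intro v _
    set S : Finset (Fin (m ^ 2) × Fin (m ^ 2)) := {x | x.1 = v ∧ R v x.2} with hS
    have hcard : ∀ h : Fin (m ^ 2) × Fin (m ^ 2) → Fin (200 * m),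
        #{j ∈ {j ∈ univ | R v j} | h (v, j) = c} = #{x ∈ S | h x = c} := by
      intro h
      apply card_bij (fun j _ => (v, j))
      · intro j hj
        simp only [mem_filter, mem_univ, true_and] at hj
        simp only [hS, mem_filter, mem_univ, true_and]
        exact ⟨hj.1, hj.2⟩
      · intro j _ j' _ hjj
        exact (Prod.mk.inj hjj).2
      · rintro ⟨v', j⟩ hx
        simp only [hS, mem_filter, mem_univ, true_and] at hx
        obtain ⟨⟨rfl, h1⟩, h2⟩ := hx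
        exact ⟨j, by simp only [mem_filter, mem_univ, true_and]; exact ⟨h1, h2⟩, rfl⟩
    have hScard : #S ≤ m ^ 2 := by
      have : S ⊆ ({v} : Finset (Fin (m ^ 2))) ×ˢ (univ : Finset (Fin (m ^ 2))) := by
        intro x hx
        simp only [hS, mem_filter, mem_univ, true_and] at hx
        simp only [mem_product, mem_singleton, mem_univ, and_true]
        exact hx.1
      have h2 := card_le_card this
      rw [card_product, card_singleton, card_univ, Fintype.card_fin, one_mul] at h2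
      exact h2
    calc pr (fun h : Fin (m ^ 2) × Fin (m ^ 2) → Fin (200 * m) =>
        ((m : ℝ) / 50) < #{j ∈ {j ∈ univ | R v j} | h (v, j) = c})
        ≤ avg (fun h : Fin (m ^ 2) × Fin (m ^ 2) → Fin (200 * m) =>
          Real.exp (-(m : ℝ) / 50) * (Real.exp 1) ^ #{x ∈ S | h x = c}) := by
          apply pr_le_avg
          · intro h; positivity
          · intro h hh
            rw [hcard] at hh
            rw [← Real.exp_nat_mul, ← Real.exp_add]
            apply Real.one_le_exp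
            have : -(m : ℝ) / 50 = -((m : ℝ) / 50) := by ring
            rw [this]
            linarith
      _ ≤ Real.exp (-(m : ℝ) / 50) * Real.exp (#S * (Real.exp 1 - 1) / (200 * m : ℕ)) := by
          rw [avg_const_mul]
          apply mul_le_mul_of_nonneg_left _ (Real.exp_pos _).le
          have := avg_gf_le (κ := Fin (200 * m)) S (fun _ => c) (Real.exp 1) (Real.exp_pos _).le
          rwa [Fintype.card_fin] at this
      _ ≤ Real.exp (-(m : ℝ) / 100) := by
          rw [← Real.exp_add]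
          apply Real.exp_le_exp.2
          have he : Real.exp 1 - 1 ≤ 2 := by
            have := Real.exp_one_lt_d9
            linarith
          have he0 : 0 ≤ Real.exp 1 - 1 := by
            have := Real.add_one_le_exp (1 : ℝ)
            linarith
          have hS2 : (#S : ℝ) ≤ (m : ℝ) ^ 2 := by exact_mod_cast hScard
          have : (#S : ℝ) * (Real.exp 1 - 1) / ((200 * m : ℕ) : ℝ) ≤ (m : ℝ) / 100 := by
            push_cast
            rw [div_le_iff₀ (by positivity)]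
            calc (#S : ℝ) * (Real.exp 1 - 1) ≤ (m : ℝ) ^ 2 * 2 := by gcongr
              _ = (m : ℝ) / 100 * (200 * m) := by ring
          have e1 : -(m : ℝ) / 50 + (m : ℝ) / 100 = -(m : ℝ) / 100 := by ring
          linarith
  refine le_trans (sum_le_sum h1) ?_
  rw [sum_const, card_univ, Fintype.card_fin, nsmul_eq_mul]
  have h3 := hm.h3
  push_cast
  have h4 : 0 ≤ (m : ℝ) ^ 2 * Real.exp (-(m : ℝ) / 100) := by positivity
  linarith

end Pool.Agent.H54.Kim
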