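import Pool.Agent.H54.Kim.Good

/-!
# Pruned random graph: removing a maximal family of edge-disjoint triangles
-/

set_option maxHeartbeats 1000000

open Finset

namespace Pool.Agent.H54.Kim

variable {N q : ℕ} [NeZero q]

/-- edges of a triple `a < b < c` -/
def EE (τ : Fin N × Fin N × Fin N) : Finset (Fin N × Fin N) :=
  {(τ.2.1, τ.1), (τ.2.2, τ.1), (τ.2.2, τ.2.1)}

/-- sorted triples -/
def Srt (τ : Fin N × Fin N × Fin N) : Prop := τ.1 < τ.2.1 ∧ τ.2.1 < τ.2.2

instance : DecidablePred (Srt (N := N)) := fun τ => by unfold Srt; infer_instance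

lemma card_EE {τ : Fin N × Fin N × Fin N} (h : Srt τ) : #(EE τ) = 3 := by
  obtain ⟨a, b, c⟩ := τ
  obtain ⟨h1, h2⟩ := h
  simp only at h1 h2
  unfold EE
  rw [card_insert_of_notMem, card_pair]
  · intro h
    have := (Prod.mk.inj h).2
    simp only at this
    exact absurd this h1.ne
  · simp only [mem_insert, mem_singleton, not_or, Prod.mk.injEq, not_and]
    exact ⟨fun h => absurd h h2.ne, fun h => absurd h h2.ne⟩

/-- families of edge-disjoint triangles -/
def Fam (h : Fin N × Fin N → Fin q) (F : Finset (Fin N × Fin N × Fin N)) : Prop :=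
  (∀ τ ∈ F, Srt τ ∧ ∀ e ∈ EE τ, h e = 0) ∧ (F : Set (Fin N × Fin N × Fin N)).PairwiseDisjoint EE

lemma Fam.subset {h : Fin N × Fin N → Fin q} {F F' : Finset (Fin N × Fin N × Fin N)}
    (hF : Fam h F) (hs : F' ⊆ F) : Fam h F' :=
  ⟨fun τ hτ => hF.1 τ (hs hτ), hF.2.subset (by exact_mod_cast hs)⟩

lemma exists_maxFam (h : Fin N × Fin N → Fin q) :
    ∃ F, Fam h F ∧ ∀ F', Fam h F' → #F' ≤ #F := by
  classical
  obtain ⟨F, hF, hmax⟩ := exists_max_image (univ.filter fun F => Fam h F) card
    ⟨∅, by rw [mem_filter]; exact ⟨mem_univ _, by simp, by simp⟩⟩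
  rw [mem_filter] at hF
  exact ⟨F, hF.2, fun F' hF' => hmax F' (by rw [mem_filter]; exact ⟨mem_univ _, hF'⟩)⟩

/-- a maximal family of edge-disjoint triangles -/
noncomputable def maxFam (h : Fin N × Fin N → Fin q) : Finset (Fin N × Fin N × Fin N) :=
  (exists_maxFam h).choose

lemma maxFam_fam (h : Fin N × Fin N → Fin q) : Fam h (maxFam h) := (exists_maxFam h).choose_spec.1

lemma maxFam_max (h : Fin N × Fin N → Fin q) {F'} (hF' : Fam h F') : #F' ≤ #(maxFam h) :=
  (exists_maxFam h).choose_spec.2 F' hF'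

/-- removed edges -/
noncomputable def removed (h : Fin N × Fin N → Fin q) : Finset (Fin N × Fin N) :=
  (maxFam h).biUnion EE

/-- pruned oriented adjacency -/
def up' (h : Fin N × Fin N → Fin q) (a b : Fin N) : Prop :=
  b < a ∧ h (a, b) = 0 ∧ (a, b) ∉ removed h

/-- pruned adjacency -/
def Hpr (h : Fin N × Fin N → Fin q) (a b : Fin N) : Prop := up' h a b ∨ up' h b a

lemma Hpr_symm {h : Fin N × Fin N → Fin q} {a b : Fin N} (hab : Hpr h a b) : Hpr h b a := hab.symm

lemma Hpr_Hadj {h : Fin N × Fin N → Fin q} {a b : Fin N} (hab : Hpr h a b) : Hadj h a b := by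
  rcases hab with h1 | h1
  · left; exact ⟨h1.1, h1.2.1⟩
  · right; exact ⟨h1.1, h1.2.1⟩

lemma Hpr_ne {h : Fin N × Fin N → Fin q} {a b : Fin N} (hab : Hpr h a b) : a ≠ b :=
  Hadj_ne (Hpr_Hadj hab)

lemma up'_of_lt {h : Fin N × Fin N → Fin q} {a b : Fin N} (hab : Hpr h a b) (hlt : b < a) :
    up' h a b := by
  rcases hab with h1 | h1
  · exact h1
  · exact absurd h1.1 (lt_asymm hlt)

lemma no_sorted_triangle (h : Fin N × Fin N → Fin q) (a b c : Fin N) (hab : a < b) (hbc : b < c)
    (h1 : up' h b a) (h2 : up' h c a) (h3 : up' h c b) : False := by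
  classical
  set τ : Fin N × Fin N × Fin N := (a, b, c) with hτ
  have hsrt : Srt τ := ⟨hab, hbc⟩
  have hEE : ∀ e ∈ EE τ, h e = 0 ∧ e ∉ removed h := by
    intro e he
    simp only [EE, hτ, mem_insert, mem_singleton] at he
    rcases he with rfl | rfl | rfl
    · exact h1.2
    · exact h2.2
    · exact h3.2
  have hnot : τ ∉ maxFam h := by
    intro hmem
    have he : (b, a) ∈ EE τ := by simp [EE, hτ]
    have : (b, a) ∈ removed h := by
      unfold removed
      rw [mem_biUnion]
      exact ⟨τ, hmem, he⟩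
    exact (hEE _ he).2 this
  have hfam : Fam h (insert τ (maxFam h)) := by
    have hm := maxFam_fam h
    constructor
    · intro σ hσ
      rw [mem_insert] at hσ
      rcases hσ with rfl | hσ
      · exact ⟨hsrt, fun e he => (hEE e he).1⟩
      · exact hm.1 σ hσ
    · rw [coe_insert]
      apply hm.2.insert
      intro σ hσ _
      rw [disjoint_left]
      intro e he1 he2
      apply (hEE e he1).2
      unfold removed
      rw [mem_biUnion]
      exact ⟨σ, hσ, he2⟩
  have := maxFam_max h hfam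
  rw [card_insert_of_notMem hnot] at this
  omega

/-- the pruned graph is triangle-free -/
lemma no_triangle (h : Fin N × Fin N → Fin q) (a b c : Fin N) (h1 : Hpr h a b) (h2 : Hpr h b c)
    (h3 : Hpr h a c) : False := by
  have n1 := Hpr_ne h1
  have n2 := Hpr_ne h2
  have n3 := Hpr_ne h3
  rcases lt_or_gt_of_ne n1 with l1 | l1
  · rcases lt_or_gt_of_ne n2 with l2 | l2
    · -- a < b < c
      exact no_sorted_triangle h a b c l1 l2 (up'_of_lt (Hpr_symm h1) l1)
        (up'_of_lt (Hpr_symm h3) (l1.trans l2)) (up'_of_lt (Hpr_symm h2) l2)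
    · rcases lt_or_gt_of_ne n3 with l3 | l3
      · -- a < c < b
        exact no_sorted_triangle h a c b l3 l2 (up'_of_lt (Hpr_symm h3) l3)
          (up'_of_lt (Hpr_symm h1) l1) (up'_of_lt h2 l2)
      · -- c < a < b
        exact no_sorted_triangle h c a b l3 l1 (up'_of_lt h3 l3)
          (up'_of_lt h2 l2) (up'_of_lt (Hpr_symm h1) l1)
  · rcases lt_or_gt_of_ne n2 with l2 | l2
    · rcases lt_or_gt_of_ne n3 with l3 | l3
      · -- b < a < c
        exact no_sorted_triangle h b a c l1 l3 (up'_of_lt h1 l1)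
          (up'_of_lt (Hpr_symm h2) l2) (up'_of_lt (Hpr_symm h3) l3)
      · -- b < c < a
        exact no_sorted_triangle h b c a l2 l3 (up'_of_lt (Hpr_symm h2) l2)
          (up'_of_lt h1 l1) (up'_of_lt h3 l3)
    · -- c < b < a
      exact no_sorted_triangle h c b a l2 l1 (up'_of_lt h2 l2)
        (up'_of_lt h3 (l2.trans l1)) (up'_of_lt h1 l1)

/-- lower tail -/
lemma lower_tail (O : Finset (Fin N × Fin N)) :
    pr (fun h : Fin N × Fin N → Fin q => (#{e ∈ O | h e = 0} : ℝ) < #O / (4 * q)) ≤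
      Real.exp (-(#O / (4 * q))) := by
  have hq : 0 < q := Nat.pos_of_ne_zero (NeZero.ne q)
  have hq0 : (0 : ℝ) < q := by exact_mod_cast hq
  have h1 : pr (fun h : Fin N × Fin N → Fin q => (#{e ∈ O | h e = 0} : ℝ) < #O / (4 * q)) ≤
      avg (fun h : Fin N × Fin N → Fin q => Real.exp (#O / (4 * q)) * (1 / 2 : ℝ) ^ #{e ∈ O | h e = 0}) := by
    apply pr_le_avg
    · intro h; positivity
    · intro h hh
      have e1 : Real.exp (-1) ≤ 1 / 2 := by
        rw [Real.exp_neg, inv_le_comm₀ (Real.exp_pos _) (by norm_num)]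
        have := Real.exp_one_gt_d9
        norm_num
        linarith
      have e2 : Real.exp (-(#{e ∈ O | h e = 0} : ℝ)) ≤ (1 / 2 : ℝ) ^ #{e ∈ O | h e = 0} := by
        calc Real.exp (-(#{e ∈ O | h e = 0} : ℝ)) = (Real.exp (-1)) ^ #{e ∈ O | h e = 0} := by
              rw [← Real.exp_nat_mul]; congr 1; ring
          _ ≤ _ := pow_le_pow_left₀ (Real.exp_pos _).le e1 _
      calc (1 : ℝ) ≤ Real.exp (#O / (4 * q)) * Real.exp (-(#{e ∈ O | h e = 0} : ℝ)) := by
            rw [← Real.exp_add]
            apply Real.one_le_exp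
            linarith
        _ ≤ _ := by gcongr
  refine le_trans h1 ?_
  rw [avg_const_mul]
  have h2 := avg_gf_le (κ := Fin q) O (fun _ => 0) (1 / 2) (by norm_num)
  rw [Fintype.card_fin] at h2
  calc Real.exp (#O / (4 * q)) * avg (fun h : Fin N × Fin N → Fin q => (1 / 2 : ℝ) ^ #{e ∈ O | h e = 0})
      ≤ Real.exp (#O / (4 * q)) * Real.exp (#O * (1 / 2 - 1) / q) := by gcongr
    _ = _ := by
      rw [← Real.exp_add]
      congr 1
      field_simp
      ring

/-- triples with an edge inside `J` -/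
def TJ (J : Finset (Fin N)) : Finset (Fin N × Fin N × Fin N) :=
  univ.filter fun τ => Srt τ ∧ ∃ e ∈ EE τ, e ∈ J ×ˢ J

lemma card_TJ (J : Finset (Fin N)) : #(TJ J) ≤ 3 * #J ^ 2 * N := by
  classical
  have h : TJ J ⊆ (((J ×ˢ J) ×ˢ (univ : Finset (Fin N))).image fun x => (x.1.2, x.1.1, x.2)) ∪
      ((((J ×ˢ J) ×ˢ (univ : Finset (Fin N))).image fun x => (x.1.2, x.2, x.1.1)) ∪
      (((J ×ˢ J) ×ˢ (univ : Finset (Fin N))).image fun x => (x.2, x.1.2, x.1.1))) := by
    rintro ⟨a, b, c⟩ hτ
    simp only [TJ, mem_filter, mem_univ, true_and, EE, mem_insert, mem_singleton] at hτ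
    obtain ⟨_, e, he, hJ⟩ := hτ
    simp only [mem_union, mem_image, mem_product, mem_univ, and_true]
    rcases he with rfl | rfl | rfl
    · left
      rw [mem_product] at hJ
      exact ⟨((b, a), c), hJ, rfl⟩
    · right; left
      rw [mem_product] at hJ
      exact ⟨((c, a), b), hJ, rfl⟩
    · right; right
      rw [mem_product] at hJ
      exact ⟨((c, b), a), hJ, rfl⟩
  refine le_trans (card_le_card h) ?_
  refine le_trans (card_union_le _ _) ?_
  have hb : #((J ×ˢ J) ×ˢ (univ : Finset (Fin N))) = #J ^ 2 * N := by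
    rw [card_product, card_product, card_univ, Fintype.card_fin, sq]
  have h1 := card_image_le (s := (J ×ˢ J) ×ˢ (univ : Finset (Fin N)))
    (f := fun x => (x.1.2, x.1.1, x.2))
  have h2 := card_image_le (s := (J ×ˢ J) ×ˢ (univ : Finset (Fin N)))
    (f := fun x => (x.1.2, x.2, x.1.1))
  have h3 := card_image_le (s := (J ×ˢ J) ×ˢ (univ : Finset (Fin N)))
    (f := fun x => (x.2, x.1.2, x.1.1))
  have h4 := card_union_le
    (((J ×ˢ J) ×ˢ (univ : Finset (Fin N))).image fun x => (x.1.2, x.2, x.1.1))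
    (((J ×ˢ J) ×ˢ (univ : Finset (Fin N))).image fun x => (x.2, x.1.2, x.1.1))
  rw [hb] at h1 h2 h3
  nlinarith

/-- probability that there are `t` edge-disjoint triangles with an edge inside `J` -/
lemma family_tail (J : Finset (Fin N)) (t : ℕ) :
    pr (fun h : Fin N × Fin N → Fin q => ∃ F ∈ (powersetCard t (TJ J)), Fam h F) ≤
      ((3 * #J ^ 2 * N : ℕ) : ℝ) ^ t / t.factorial * (1 / (q : ℝ)) ^ (3 * t) := by
  classical
  refine le_trans (pr_exists_le _ _) ?_
  have h1 : ∀ F ∈ powersetCard t (TJ J), pr (fun h : Fin N × Fin N → Fin q => Fam h F) ≤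
      (1 / (q : ℝ)) ^ (3 * t) := by
    intro F hF
    rw [mem_powersetCard] at hF
    by_cases hd : (F : Set (Fin N × Fin N × Fin N)).PairwiseDisjoint EE
    · have h2 : pr (fun h : Fin N × Fin N → Fin q => Fam h F) ≤
          pr (fun h : Fin N × Fin N → Fin q => ∀ e ∈ F.biUnion EE, h e = 0) := by
        apply pr_mono
        intro h hh e he
        rw [mem_biUnion] at he
        obtain ⟨τ, hτ, he⟩ := he
        exact (hh.1 τ hτ).2 e he
      refine le_trans h2 ?_
      rw [pr_forall_eq, Fintype.card_fin]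
      have h3 : #(F.biUnion EE) = 3 * t := by
        rw [card_biUnion hd]
        rw [sum_congr rfl (fun τ hτ => card_EE ?_)]
        · rw [sum_const, hF.2, smul_eq_mul, mul_comm]
        · have := hF.1 hτ
          rw [TJ, mem_filter] at this
          exact this.2.1
      rw [h3]
    · have h2 : pr (fun h : Fin N × Fin N → Fin q => Fam h F) ≤
          pr (fun _ : Fin N × Fin N → Fin q => False) := by
        apply pr_mono
        intro h hh
        exact hd hh.2
      have h3 : pr (fun _ : Fin N × Fin N → Fin q => False) = 0 := by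
        unfold pr
        simp_rw [ind_neg not_false]
        unfold avg
        simp
      rw [h3] at h2
      exact le_trans h2 (by positivity)
  refine le_trans (sum_le_sum h1) ?_
  rw [sum_const, card_powersetCard, nsmul_eq_mul]
  apply mul_le_mul_of_nonneg_right _ (by positivity)
  calc ((Nat.choose #(TJ J) t : ℕ) : ℝ) ≤ (#(TJ J) : ℝ) ^ t / t.factorial :=
        Nat.choose_le_pow_div t _
    _ ≤ _ := by
        gcongr
        exact_mod_cast card_TJ J

end Pool.Agent.H54.Kim
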