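import Pool.Agent.H54.Kim.Edges

/-!
# Every dense enough set of pairs on a small vertex set contains an edge of the pruned graph
-/

set_option maxHeartbeats 1000000

open Finset

namespace Pool.Agent.H54.Kim

lemma three_exp_le : 3 * Real.exp 1 / 400 ≤ Real.exp (-(7 / 2)) := by
  have h1 := Real.exp_one_lt_d9
  have h2 : Real.exp (9 / 2) ≤ 400 / 3 := by
    have h3 : Real.exp (9 / 2) ^ 2 = Real.exp 1 ^ 9 := by
      rw [← Real.exp_nat_mul, ← Real.exp_nat_mul]
      norm_num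
    have h4 : Real.exp 1 ^ 9 ≤ (2.72 : ℝ) ^ 9 := by
      apply pow_le_pow_left₀ (Real.exp_pos _).le
      linarith
    have h5 : (2.72 : ℝ) ^ 9 ≤ (400 / 3) ^ 2 := by norm_num
    have h6 : Real.exp (9 / 2) ^ 2 ≤ (400 / 3) ^ 2 := by linarith
    exact le_of_pow_le_pow_left₀ (by norm_num) (by norm_num) h6
  have h7 : Real.exp (9 / 2) * Real.exp (-(7 / 2)) = Real.exp 1 := by
    rw [← Real.exp_add]; norm_num
  have h8 := Real.exp_pos (-(7 / 2))
  have : Real.exp 1 ≤ 400 / 3 * Real.exp (-(7 / 2)) := by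
    rw [← h7]
    gcongr
  linarith

lemma family_tail' (m : ℕ) (hm : Big m) [NeZero (200 * m)] (J : Finset (Fin (m ^ 2)))
    (hJ : #J = yy m) :
    pr (fun h : Fin (m ^ 2) × Fin (m ^ 2) → Fin (200 * m) =>
      ∃ F ∈ (powersetCard (20000 * m * LL m ^ 2) (TJ J)), Fam h F) ≤
      Real.exp (-(70000 * m * (LL m) ^ 2)) := by
  have hm10 : (10 : ℝ) ≤ m := by exact_mod_cast hm.m_ge
  have hm0 : (0 : ℝ) < m := by linarith
  have hLL1 : (1 : ℝ) ≤ LL m := by
    unfold LL; push_cast; linarith [Nat.cast_nonneg (α := ℝ) (Nat.log 2 m)]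
  set t : ℕ := 20000 * m * LL m ^ 2 with ht
  have ht' : (t : ℝ) = 20000 * m * (LL m : ℝ) ^ 2 := by rw [ht]; push_cast; ring
  refine le_trans (family_tail J t) ?_
  rw [hJ]
  have e1 : (((3 * yy m ^ 2 * m ^ 2 : ℕ) : ℝ)) * (1 / ((200 * m : ℕ) : ℝ)) ^ 3 = 3 / 400 * t := by
    rw [ht']
    unfold yy
    push_cast
    field_simp
    ring
  calc ((3 * yy m ^ 2 * m ^ 2 : ℕ) : ℝ) ^ t / t.factorial * (1 / ((200 * m : ℕ) : ℝ)) ^ (3 * t)
      = ((((3 * yy m ^ 2 * m ^ 2 : ℕ) : ℝ)) * (1 / ((200 * m : ℕ) : ℝ)) ^ 3) ^ t / t.factorial := by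
        rw [pow_mul, mul_pow]
        ring
    _ = (3 / 400) ^ t * ((t : ℝ) ^ t / t.factorial) := by
        rw [e1, mul_pow]
        ring
    _ ≤ (3 / 400) ^ t * Real.exp t := by
        gcongr
        exact Real.pow_div_factorial_le_exp (t : ℝ) (Nat.cast_nonneg t) t
    _ = (3 * Real.exp 1 / 400) ^ t := by
        rw [show (t : ℝ) = (t : ℝ) * 1 by ring, Real.exp_nat_mul, ← mul_pow]
        congr 1
        ring
    _ ≤ (Real.exp (-(7 / 2))) ^ t := by
        apply pow_le_pow_left₀ (by positivity)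
        exact three_exp_le
    _ = _ := by
        rw [← Real.exp_nat_mul, ht']
        congr 1
        ring

lemma edges_exist (m : ℕ) (hm : Big m) [NeZero (200 * m)] {κ : Type*} (I : Finset κ)
    (J : κ → Finset (Fin (m ^ 2))) (O : κ → Finset (Fin (m ^ 2) × Fin (m ^ 2)))
    (hI : #I ≤ (m ^ 2 * LL m) ^ (yy m)) (hJ : ∀ i ∈ I, #(J i) = yy m)
    (hO : ∀ i ∈ I, O i ⊆ J i ×ˢ J i) (hO2 : ∀ i ∈ I, (yy m : ℝ) ^ 2 / 5 ≤ #(O i)) :
    pr (fun h : Fin (m ^ 2) × Fin (m ^ 2) → Fin (200 * m) =>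
      ∃ i ∈ I, ∀ e ∈ O i, ¬ (h e = 0 ∧ e ∉ removed h)) ≤ 1 / 100 := by
  classical
  have hm10 : (10 : ℝ) ≤ m := by exact_mod_cast hm.m_ge
  have hm0 : (0 : ℝ) < m := by linarith
  have hLL1 : (1 : ℝ) ≤ LL m := by
    unfold LL; push_cast; linarith [Nat.cast_nonneg (α := ℝ) (Nat.log 2 m)]
  set W : ℝ := (m : ℝ) * (LL m) ^ 2 with hW
  have hW10 : 10 ≤ W := by
    rw [hW]
    have : (1 : ℝ) ≤ (LL m : ℝ) ^ 2 := one_le_pow₀ hLL1
    nlinarith
  have hy2 : (yy m : ℝ) ^ 2 / 5 / (4 * ((200 * m : ℕ) : ℝ)) = 100000 * W := by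
    rw [hW]
    unfold yy
    push_cast
    field_simp
    ring
  refine le_trans (pr_exists_le _ _) ?_
  have h1 : ∀ i ∈ I, pr (fun h : Fin (m ^ 2) × Fin (m ^ 2) → Fin (200 * m) =>
      ∀ e ∈ O i, ¬ (h e = 0 ∧ e ∉ removed h)) ≤ 2 * Real.exp (-(70000 * W)) := by
    intro i hi
    have hOq : 100000 * W ≤ #(O i) / (4 * ((200 * m : ℕ) : ℝ)) := by
      rw [← hy2]
      have := hO2 i hi
      gcongr
    have h2 : pr (fun h : Fin (m ^ 2) × Fin (m ^ 2) → Fin (200 * m) =>
        ∀ e ∈ O i, ¬ (h e = 0 ∧ e ∉ removed h)) ≤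
        pr (fun h : Fin (m ^ 2) × Fin (m ^ 2) → Fin (200 * m) =>
          (#{e ∈ O i | h e = 0} : ℝ) < #(O i) / (4 * ((200 * m : ℕ) : ℝ)) ∨
          ∃ F ∈ (powersetCard (20000 * m * LL m ^ 2) (TJ (J i))), Fam h F) := by
      apply pr_mono
      intro h hh
      by_contra hcon
      push Not at hcon
      obtain ⟨c1, c2⟩ := hcon
      set FJ := (maxFam h).filter (fun τ => τ ∈ TJ (J i)) with hFJ
      have hsub : ({e ∈ O i | h e = 0} : Finset _) ⊆ FJ.biUnion EE := by
        intro e he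
        rw [mem_filter] at he
        have h3 := hh e he.1
        push Not at h3
        have h4 := h3 he.2
        unfold removed at h4
        rw [mem_biUnion] at h4
        obtain ⟨τ, hτ, heτ⟩ := h4
        rw [mem_biUnion]
        refine ⟨τ, ?_, heτ⟩
        rw [hFJ, mem_filter]
        refine ⟨hτ, ?_⟩
        rw [TJ, mem_filter]
        exact ⟨mem_univ _, ((maxFam_fam h).1 τ hτ).1, e, heτ, hO i hi he.1⟩
      have h5 : #{e ∈ O i | h e = 0} ≤ 3 * #FJ := by
        refine le_trans (card_le_card hsub) ?_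
        refine le_trans card_biUnion_le ?_
        rw [sum_congr rfl (fun τ hτ => card_EE ?_)]
        · rw [sum_const, smul_eq_mul, mul_comm]
        · rw [hFJ, mem_filter] at hτ
          exact ((maxFam_fam h).1 τ hτ.1).1
      have h6 : (#{e ∈ O i | h e = 0} : ℝ) ≤ 3 * #FJ := by exact_mod_cast h5
      have h7 : (20000 * m * LL m ^ 2 : ℕ) ≤ #FJ := by
        have : ((20000 * m * LL m ^ 2 : ℕ) : ℝ) ≤ #FJ := by
          push_cast
          have : 20000 * (m : ℝ) * (LL m : ℝ) ^ 2 = 20000 * W := by rw [hW]; ring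
          rw [this]
          linarith
        exact_mod_cast this
      obtain ⟨F, hF1, hF2⟩ := exists_subset_card_eq h7
      apply c2 F
      · rw [mem_powersetCard]
        refine ⟨?_, hF2⟩
        intro τ hτ
        have := hF1 hτ
        rw [hFJ, mem_filter] at this
        exact this.2
      · exact (maxFam_fam h).subset (hF1.trans (filter_subset _ _))
    refine le_trans h2 ?_
    refine le_trans (pr_or_le _ _) ?_
    have h3 := lower_tail (N := m ^ 2) (q := 200 * m) (O i)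
    have h4 := family_tail' m hm (J i) (hJ i hi)
    have h5 : Real.exp (-(#(O i) / (4 * ((200 * m : ℕ) : ℝ)))) ≤ Real.exp (-(70000 * W)) := by
      apply Real.exp_le_exp.2
      linarith
    have h6 : Real.exp (-(70000 * m * (LL m) ^ 2)) = Real.exp (-(70000 * W)) := by
      congr 1
      rw [hW]; ring
    rw [h6] at h4
    linarith
  refine le_trans (sum_le_sum h1) ?_
  rw [sum_const, nsmul_eq_mul]
  have h2 : (#I : ℝ) ≤ Real.exp (60000 * W) := by
    have h3 : (#I : ℝ) ≤ ((m : ℝ) ^ 2 * LL m) ^ (yy m) := by exact_mod_cast hI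
    refine le_trans h3 ?_
    have h4 : (m : ℝ) ^ 2 * LL m ≤ Real.exp (3 * LL m) := by
      have h5 : (m : ℝ) ≤ Real.exp (LL m) := by
        rw [← Real.exp_log hm0]
        exact Real.exp_le_exp.2 hm.h5
      have h6 : (LL m : ℝ) ≤ Real.exp (LL m) := by
        linarith [Real.add_one_le_exp (LL m : ℝ)]
      calc (m : ℝ) ^ 2 * LL m ≤ (Real.exp (LL m)) ^ 2 * Real.exp (LL m) := by gcongr
        _ = Real.exp (3 * LL m) := by
          rw [← pow_succ, ← Real.exp_nat_mul]
          norm_num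
    calc ((m : ℝ) ^ 2 * LL m) ^ (yy m) ≤ (Real.exp (3 * LL m)) ^ (yy m) := by gcongr
      _ = Real.exp (60000 * W) := by
        rw [← Real.exp_nat_mul, hW]
        congr 1
        unfold yy
        push_cast
        ring
  calc (#I : ℝ) * (2 * Real.exp (-(70000 * W))) ≤ Real.exp (60000 * W) * (2 * Real.exp (-(70000 * W))) := by
        gcongr
    _ = 2 * Real.exp (-(10000 * W)) := by
        rw [mul_left_comm, ← Real.exp_add]
        congr 2
        ring
    _ ≤ 1 / 100 := by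
        have h3 : Real.exp (-(10000 * W)) ≤ 1 / (1 + 10000 * W) := by
          rw [Real.exp_neg, ← one_div]
          apply one_div_le_one_div_of_le (by positivity)
          linarith [Real.add_one_le_exp (10000 * W)]
        have h4 : 1 / (1 + 10000 * W) ≤ 1 / 200 := by
          apply one_div_le_one_div_of_le (by norm_num)
          linarith
        linarith

end Pool.Agent.H54.Kim
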