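import Mathlib

/-!
# Elementary probability on finite product spaces
-/

set_option maxHeartbeats 1000000

open Finset

namespace Pool.Agent.H54.Kim

/-- average of a real function on a finite type -/
noncomputable def avg {Ω : Type*} [Fintype Ω] (f : Ω → ℝ) : ℝ := (∑ x, f x) / Fintype.card Ω

/-- indicator of a proposition -/
noncomputable def ind (P : Prop) : ℝ := by
  classical exact if P then (1 : ℝ) else 0

lemma ind_pos {P : Prop} (h : P) : ind P = 1 := by
  unfold ind; exact if_pos h

lemma ind_neg {P : Prop} (h : ¬ P) : ind P = 0 := by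
  unfold ind; exact if_neg h

lemma ind_nonneg (P : Prop) : 0 ≤ ind P := by
  by_cases h : P
  · rw [ind_pos h]; norm_num
  · rw [ind_neg h]

lemma ind_le_one (P : Prop) : ind P ≤ 1 := by
  by_cases h : P
  · rw [ind_pos h]
  · rw [ind_neg h]; norm_num

lemma ind_eq_ite (P : Prop) [Decidable P] : ind P = if P then 1 else 0 := by
  by_cases h : P
  · rw [ind_pos h, if_pos h]
  · rw [ind_neg h, if_neg h]

/-- probability of an event -/
noncomputable def pr {Ω : Type*} [Fintype Ω] (P : Ω → Prop) : ℝ := avg fun x => ind (P x)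

section basic

variable {Ω : Type*} [Fintype Ω]

lemma avg_mono {f g : Ω → ℝ} (h : ∀ x, f x ≤ g x) : avg f ≤ avg g := by
  unfold avg
  gcongr with x
  exact h x

lemma avg_nonneg {f : Ω → ℝ} (h : ∀ x, 0 ≤ f x) : 0 ≤ avg f := by
  unfold avg
  exact div_nonneg (sum_nonneg fun x _ => h x) (Nat.cast_nonneg _)

lemma avg_add (f g : Ω → ℝ) : avg (fun x => f x + g x) = avg f + avg g := by
  unfold avg
  rw [sum_add_distrib, add_div]

lemma avg_sub (f g : Ω → ℝ) : avg (fun x => f x - g x) = avg f - avg g := by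
  unfold avg
  rw [sum_sub_distrib, sub_div]

lemma avg_const_mul (c : ℝ) (f : Ω → ℝ) : avg (fun x => c * f x) = c * avg f := by
  unfold avg
  rw [← mul_sum, mul_div_assoc]

lemma avg_sum {ι : Type*} (s : Finset ι) (f : ι → Ω → ℝ) :
    avg (fun x => ∑ i ∈ s, f i x) = ∑ i ∈ s, avg (f i) := by
  unfold avg
  rw [sum_comm, sum_div]

lemma avg_const [Nonempty Ω] (c : ℝ) : avg (fun _ : Ω => c) = c := by
  unfold avg
  rw [sum_const, card_univ, nsmul_eq_mul]
  field_simp

lemma pr_nonneg (P : Ω → Prop) : 0 ≤ pr P := avg_nonneg fun _ => ind_nonneg _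

/-- Markov -/
lemma pr_le_avg (P : Ω → Prop) (f : Ω → ℝ) (hf : ∀ x, 0 ≤ f x) (h : ∀ x, P x → 1 ≤ f x) :
    pr P ≤ avg f := by
  apply avg_mono
  intro x
  by_cases hx : P x
  · rw [ind_pos hx]; exact h x hx
  · rw [ind_neg hx]; exact hf x

lemma pr_mono {P Q : Ω → Prop} (h : ∀ x, P x → Q x) : pr P ≤ pr Q := by
  apply avg_mono
  intro x
  by_cases hx : P x
  · rw [ind_pos hx, ind_pos (h x hx)]
  · rw [ind_neg hx]; exact ind_nonneg _

lemma pr_or_le (P Q : Ω → Prop) : pr (fun x => P x ∨ Q x) ≤ pr P + pr Q := by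
  unfold pr
  rw [← avg_add]
  apply avg_mono
  intro x
  by_cases h : P x ∨ Q x
  · rw [ind_pos h]
    rcases h with h | h
    · rw [ind_pos h]; linarith [ind_nonneg (Q x)]
    · rw [ind_pos h]; linarith [ind_nonneg (P x)]
  · rw [ind_neg h]; linarith [ind_nonneg (P x), ind_nonneg (Q x)]

lemma pr_exists_le {ι : Type*} (s : Finset ι) (P : ι → Ω → Prop) :
    pr (fun x => ∃ i ∈ s, P i x) ≤ ∑ i ∈ s, pr (P i) := by
  unfold pr
  rw [← avg_sum]
  apply avg_mono
  intro x
  by_cases h : ∃ i ∈ s, P i x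
  · rw [ind_pos h]
    obtain ⟨i, hi, hP⟩ := h
    calc (1 : ℝ) = ind (P i x) := (ind_pos hP).symm
      _ ≤ ∑ i ∈ s, ind (P i x) := by
        apply single_le_sum (f := fun i => ind (P i x)) _ hi
        intro j _
        exact ind_nonneg _
  · rw [ind_neg h]
    apply sum_nonneg
    intro j _
    exact ind_nonneg _

lemma exists_of_pr_lt [Nonempty Ω] {P : Ω → Prop} (h : pr P < 1) : ∃ x, ¬ P x := by
  by_contra hcon
  push Not at hcon
  have : pr P = 1 := by
    unfold pr
    have h2 : ∀ x, ind (P x) = 1 := fun x => ind_pos (hcon x)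
    simp_rw [h2]
    exact avg_const 1
  linarith

lemma avg_equiv {Ω' : Type*} [Fintype Ω'] (e : Ω ≃ Ω') (f : Ω' → ℝ) :
    avg (fun x => f (e x)) = avg f := by
  unfold avg
  rw [Fintype.card_congr e]
  congr 1
  exact Fintype.sum_equiv e _ _ fun _ => rfl

lemma pr_equiv {Ω' : Type*} [Fintype Ω'] (e : Ω ≃ Ω') (P : Ω' → Prop) :
    pr (fun x => P (e x)) = pr P := by
  exact avg_equiv e fun x => ind (P x)

end basic

section product

variable {ι κ : Type*} [Fintype ι] [DecidableEq ι] [Fintype κ]

lemma avg_prod (f : ι → κ → ℝ) :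
    avg (fun x : ι → κ => ∏ i, f i (x i)) = ∏ i, avg (f i) := by
  classical
  unfold avg
  rw [prod_div_distrib]
  congr 1
  · rw [prod_univ_sum, Fintype.piFinset_univ]
  · rw [Fintype.card_fun]
    simp

variable [DecidableEq κ]

/-- generating function -/
lemma avg_gf [Nonempty κ] (S : Finset ι) (τ : ι → κ) (z : ℝ) :
    avg (fun x : ι → κ => z ^ #{i ∈ S | x i = τ i})
      = (1 + (z - 1) / Fintype.card κ) ^ #S := by
  have h1 : ∀ x : ι → κ, z ^ #{i ∈ S | x i = τ i}
      = ∏ i, (if i ∈ S ∧ x i = τ i then z else 1) := by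
    intro x
    rw [← prod_filter, prod_const]
    congr 2
    ext i
    simp
  have hk : (Fintype.card κ : ℝ) ≠ 0 := by
    have := Fintype.card_pos (α := κ)
    positivity
  have h2 : ∀ i, avg (fun a : κ => if i ∈ S ∧ a = τ i then z else 1)
      = if i ∈ S then 1 + (z - 1) / Fintype.card κ else 1 := by
    intro i
    by_cases hi : i ∈ S
    · simp only [hi, true_and, if_true]
      have : ∀ a : κ, (if a = τ i then z else 1) = 1 + (if a = τ i then (z - 1) else 0) := by
        intro a; split_ifs <;> ring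
      simp_rw [this]
      rw [avg_add, avg_const]
      congr 1
      unfold avg
      simp
    · simp only [hi, false_and, if_false]
      exact avg_const 1
  simp_rw [h1]
  rw [avg_prod (fun i a => if i ∈ S ∧ a = τ i then z else 1)]
  simp_rw [h2]
  rw [prod_ite]
  simp

lemma avg_gf_le [Nonempty κ] (S : Finset ι) (τ : ι → κ) (z : ℝ) (hz : 0 ≤ z) :
    avg (fun x : ι → κ => z ^ #{i ∈ S | x i = τ i})
      ≤ Real.exp (#S * (z - 1) / Fintype.card κ) := by
  rw [avg_gf]
  have hk : (1 : ℝ) ≤ (Fintype.card κ : ℝ) := by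
    have := Fintype.card_pos (α := κ)
    exact_mod_cast this
  have h0 : 0 ≤ 1 + (z - 1) / Fintype.card κ := by
    rw [sub_div]
    have h1 : 1 / (Fintype.card κ : ℝ) ≤ 1 := by
      rw [div_le_one (by linarith)]; exact hk
    have h2 : 0 ≤ z / (Fintype.card κ : ℝ) := by positivity
    linarith
  calc (1 + (z - 1) / Fintype.card κ) ^ #S ≤ (Real.exp ((z - 1) / Fintype.card κ)) ^ #S := by
        apply pow_le_pow_left₀ h0
        linarith [Real.add_one_le_exp ((z - 1) / (Fintype.card κ : ℝ))]
    _ = _ := by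
        rw [← Real.exp_nat_mul]
        congr 1
        ring

/-- probability that all coordinates in `S` lie in a given set -/
lemma pr_forall_mem [Nonempty κ] (S : Finset ι) (A : Finset κ) :
    pr (fun x : ι → κ => ∀ i ∈ S, x i ∈ A) = ((#A : ℝ) / Fintype.card κ) ^ #S := by
  classical
  have h1 : ∀ x : ι → κ, ind (∀ i ∈ S, x i ∈ A)
      = ∏ i, (if i ∈ S then (if x i ∈ A then 1 else 0) else 1) := by
    intro x
    rw [ind_eq_ite]
    split_ifs with h
    · symm
      apply prod_eq_one
      intro i _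
      split_ifs with h1 h2
      · rfl
      · exact absurd (h i h1) h2
      · rfl
    · push Not at h
      obtain ⟨i, hi, hx⟩ := h
      symm
      apply prod_eq_zero (mem_univ i)
      rw [if_pos hi, if_neg hx]
  unfold pr
  simp_rw [h1]
  rw [avg_prod (fun i a => if i ∈ S then (if a ∈ A then (1 : ℝ) else 0) else 1)]
  have h2 : ∀ i, avg (fun a : κ => if i ∈ S then (if a ∈ A then (1 : ℝ) else 0) else 1)
      = if i ∈ S then (#A : ℝ) / Fintype.card κ else 1 := by
    intro i
    by_cases hi : i ∈ S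
    · simp only [hi, if_true]
      unfold avg
      simp
    · simp only [hi, if_false]
      exact avg_const 1
  simp_rw [h2]
  rw [prod_ite]
  simp [div_pow]

/-- probability that all coordinates in `S` are equal to given values -/
lemma pr_forall_eq [Nonempty κ] (S : Finset ι) (c : κ) :
    pr (fun x : ι → κ => ∀ i ∈ S, x i = c) = (1 / (Fintype.card κ : ℝ)) ^ #S := by
  have h := pr_forall_mem (κ := κ) S ({c} : Finset κ)
  have h2 : (fun x : ι → κ => ∀ i ∈ S, x i = c) = fun x => ∀ i ∈ S, x i ∈ ({c} : Finset κ) := by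
    funext x
    simp only [mem_singleton]
  rw [h2, h, card_singleton, Nat.cast_one]

end product

end Pool.Agent.H54.Kim
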