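import Pool.Agent.H54.Kim.Closers

/-!
# The good event for a random graph and its consequence for weighted sets
-/

set_option maxHeartbeats 1000000

open Finset

namespace Pool.Agent.H54.Kim

variable {N q : ℕ} [NeZero q]

/-- upper triangular adjacency -/
def up (h : Fin N × Fin N → Fin q) (a b : Fin N) : Prop := b < a ∧ h (a, b) = 0

/-- adjacency of the random graph -/
def Hadj (h : Fin N × Fin N → Fin q) (a b : Fin N) : Prop := up h a b ∨ up h b a

lemma Hadj_symm {h : Fin N × Fin N → Fin q} {a b : Fin N} (hab : Hadj h a b) : Hadj h b a :=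
  hab.symm

lemma Hadj_ne {h : Fin N × Fin N → Fin q} {a b : Fin N} (hab : Hadj h a b) : a ≠ b := by
  rintro rfl
  rcases hab with h | h
  · exact lt_irrefl _ h.1
  · exact lt_irrefl _ h.1

instance (h : Fin N × Fin N → Fin q) : DecidableRel (up h) := fun a b => by
  unfold up; infer_instance

instance (h : Fin N × Fin N → Fin q) : DecidableRel (Hadj h) := fun a b => by
  unfold Hadj; infer_instance

/-- the good event -/
structure Good (m : ℕ) [NeZero (200 * m)] (h : Fin (m ^ 2) × Fin (m ^ 2) → Fin (200 * m)) :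
    Prop where
  i : ∀ M : Finset (Fin (m ^ 2)), 1 ≤ #M → #M ≤ yy m →
    ∑ v, (min (#{j ∈ {j ∈ M | j < v} | h (v, j) = 0} : ℝ) ((m : ℝ) / 50)) ^ 2 < TT m #M
  ii : ∀ M : Finset (Fin (m ^ 2)), 1 ≤ #M → #M ≤ yy m →
    ∑ v, (min (#{j ∈ {j ∈ M | v < j} | h (j, v) = 0} : ℝ) ((m : ℝ) / 50)) ^ 2 < TT m #M
  iii : ∀ v, (#{j ∈ {j ∈ univ | j < v} | h (v, j) = 0} : ℝ) ≤ (m : ℝ) / 50
  iv : ∀ v, (#{j ∈ {j ∈ univ | v < j} | h (j, v) = 0} : ℝ) ≤ (m : ℝ) / 50

/-- swapping coordinates -/
def swapEquiv (N q : ℕ) : (Fin N × Fin N → Fin q) ≃ (Fin N × Fin N → Fin q) where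
  toFun h := fun x => h (x.2, x.1)
  invFun h := fun x => h (x.2, x.1)
  left_inv h := by funext x; rfl
  right_inv h := by funext x; rfl

lemma pr_not_good (m : ℕ) (hm : Big m) [NeZero (200 * m)] :
    pr (fun h : Fin (m ^ 2) × Fin (m ^ 2) → Fin (200 * m) => ¬ Good m h) ≤ 3 / 100 := by
  classical
  have h1 := union_tail m hm (fun v j => j < v) 0
  have h2 := union_tail m hm (fun v j => v < j) 0
  have h3 := deg_tail m hm (fun v j => j < v) 0
  have h4 := deg_tail m hm (fun v j => v < j) 0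
  rw [← pr_equiv (swapEquiv (m ^ 2) (200 * m))] at h2 h4
  have h6 := hm.h6
  have key : pr (fun h : Fin (m ^ 2) × Fin (m ^ 2) → Fin (200 * m) => ¬ Good m h) ≤
      (2 / (m : ℝ) ^ 2 + 2 / (m : ℝ) ^ 2) + (1 / 100 + 1 / 100) := by
    refine le_trans ?_ (add_le_add (add_le_add h1 h2) (add_le_add h3 h4))
    refine le_trans ?_ (add_le_add (pr_or_le _ _) (pr_or_le _ _))
    refine le_trans ?_ (pr_or_le _ _)
    apply pr_mono
    intro h hh
    by_contra hcon
    apply hh
    push Not at hcon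
    obtain ⟨⟨c1, c2⟩, c3, c4⟩ := hcon
    refine ⟨?_, ?_, ?_, ?_⟩
    · intro M hM1 hM2
      exact c1 M (by rw [mem_filter]; exact ⟨mem_univ _, hM1, hM2⟩)
    · intro M hM1 hM2
      exact c2 M (by rw [mem_filter]; exact ⟨mem_univ _, hM1, hM2⟩)
    · intro v
      exact c3 v (mem_univ _)
    · intro v
      exact c4 v (mem_univ _)
  have : (2 : ℝ) / (m : ℝ) ^ 2 + 2 / (m : ℝ) ^ 2 = 4 / (m : ℝ) ^ 2 := by ring
  linarith

lemma good_sq (m : ℕ) [NeZero (200 * m)]
    (h : Fin (m ^ 2) × Fin (m ^ 2) → Fin (200 * m)) (hg : Good m h)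
    (M : Finset (Fin (m ^ 2))) (hM : #M ≤ yy m) :
    ∑ v, (#{j ∈ M | Hadj h v j} : ℝ) ^ 2 ≤ 4 * TT m #M := by
  rcases Nat.eq_zero_or_pos #M with h0 | hpos
  · rw [card_eq_zero] at h0
    subst h0
    simp [TT]
  have hi := hg.i M hpos hM
  have hii := hg.ii M hpos hM
  have hb : ∀ v, (#{j ∈ M | Hadj h v j} : ℝ) ^ 2 ≤
      2 * (min (#{j ∈ {j ∈ M | j < v} | h (v, j) = 0} : ℝ) ((m : ℝ) / 50)) ^ 2 +
      2 * (min (#{j ∈ {j ∈ M | v < j} | h (j, v) = 0} : ℝ) ((m : ℝ) / 50)) ^ 2 := by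
    intro v
    have e1 : (#{j ∈ {j ∈ M | j < v} | h (v, j) = 0} : ℝ) ≤ (m : ℝ) / 50 := by
      refine le_trans ?_ (hg.iii v)
      have : #{j ∈ {j ∈ M | j < v} | h (v, j) = 0} ≤ #{j ∈ {j ∈ univ | j < v} | h (v, j) = 0} := by
        apply card_le_card
        intro j hj
        simp only [mem_filter, mem_univ, true_and] at hj ⊢
        exact ⟨hj.1.2, hj.2⟩
      exact_mod_cast this
    have e2 : (#{j ∈ {j ∈ M | v < j} | h (j, v) = 0} : ℝ) ≤ (m : ℝ) / 50 := by
      refine le_trans ?_ (hg.iv v)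
      have : #{j ∈ {j ∈ M | v < j} | h (j, v) = 0} ≤ #{j ∈ {j ∈ univ | v < j} | h (j, v) = 0} := by
        apply card_le_card
        intro j hj
        simp only [mem_filter, mem_univ, true_and] at hj ⊢
        exact ⟨hj.1.2, hj.2⟩
      exact_mod_cast this
    rw [min_eq_left e1, min_eq_left e2]
    have e3 : #{j ∈ M | Hadj h v j} ≤ #{j ∈ {j ∈ M | j < v} | h (v, j) = 0} +
        #{j ∈ {j ∈ M | v < j} | h (j, v) = 0} := by
      refine le_trans (card_le_card ?_) (card_union_le _ _)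
      intro j hj
      simp only [mem_filter, mem_union] at hj ⊢
      rcases hj.2 with h1 | h1
      · left; exact ⟨⟨hj.1, h1.1⟩, h1.2⟩
      · right; exact ⟨⟨hj.1, h1.1⟩, h1.2⟩
    have e4 : (#{j ∈ M | Hadj h v j} : ℝ) ≤ #{j ∈ {j ∈ M | j < v} | h (v, j) = 0} +
        #{j ∈ {j ∈ M | v < j} | h (j, v) = 0} := by exact_mod_cast e3
    have e5 : (0 : ℝ) ≤ #{j ∈ M | Hadj h v j} := Nat.cast_nonneg _
    nlinarith [sq_nonneg ((#{j ∈ {j ∈ M | j < v} | h (v, j) = 0} : ℝ) -
      #{j ∈ {j ∈ M | v < j} | h (j, v) = 0})]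
  calc ∑ v, (#{j ∈ M | Hadj h v j} : ℝ) ^ 2 ≤ ∑ v, (
      2 * (min (#{j ∈ {j ∈ M | j < v} | h (v, j) = 0} : ℝ) ((m : ℝ) / 50)) ^ 2 +
      2 * (min (#{j ∈ {j ∈ M | v < j} | h (j, v) = 0} : ℝ) ((m : ℝ) / 50)) ^ 2) :=
        sum_le_sum fun v _ => hb v
    _ ≤ 4 * TT m #M := by
        rw [sum_add_distrib, ← mul_sum, ← mul_sum]
        linarith

/-- weighted version: `I` any set of `yy m` vertices, `c` a map with small fibres on `I`. -/
lemma good_weighted (m : ℕ) (hm : Big m) [NeZero (200 * m)]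
    (h : Fin (m ^ 2) × Fin (m ^ 2) → Fin (200 * m)) (hg : Good m h)
    {V : Type*} [DecidableEq V] (c : V → Fin (m ^ 2)) (I : Finset V) (hI : #I = yy m)
    (hfib : ∀ j, #{u ∈ I | c u = j} ≤ 8 * LL m) :
    ∑ v, (#{u ∈ I | Hadj h v (c u)} : ℝ) ^ 2 ≤ (yy m : ℝ) ^ 2 / 20 := by
  classical
  have hm10 : (10 : ℝ) ≤ m := by exact_mod_cast hm.m_ge
  have hm0 : (0 : ℝ) < m := by linarith
  have hLLpos : 0 < LL m := by unfold LL; omega
  have hLL0 : (0 : ℝ) < LL m := by exact_mod_cast hLLpos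
  set F := 8 * LL m with hF
  have hF0 : (0 : ℝ) < F := by rw [hF]; push_cast; positivity
  set y : ℝ := (yy m : ℝ) with hy
  have hyval : y = 20000 * m * LL m := by rw [hy]; unfold yy; push_cast; ring
  have hy0 : 0 < y := by rw [hyval]; positivity
  let w : Fin (m ^ 2) → ℕ := fun j => #{u ∈ I | c u = j}
  let M : ℕ → Finset (Fin (m ^ 2)) := fun s => {j | s < w j}
  have hw : ∀ j, w j = ∑ s ∈ range F, if s < w j then 1 else 0 := by
    intro j
    rw [← card_filter]
    have : (range F).filter (fun s => s < w j) = range (w j) := by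
      ext s
      simp only [mem_filter, mem_range]
      have := hfib j
      constructor
      · exact fun h => h.2
      · intro h
        exact ⟨lt_of_lt_of_le h this, h⟩
    rw [this, card_range]
  -- degrees as sums over layers
  have hdeg : ∀ v, #{u ∈ I | Hadj h v (c u)} = ∑ s ∈ range F, #{j ∈ M s | Hadj h v j} := by
    intro v
    have e1 : #{u ∈ I | Hadj h v (c u)} = ∑ j ∈ univ.filter (fun j => Hadj h v j), w j := by
      have : Set.MapsTo c (({u ∈ I | Hadj h v (c u)} : Finset V) : Set V)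
          ((univ.filter (fun j => Hadj h v j) : Finset (Fin (m ^ 2))) : Set (Fin (m ^ 2))) := by
        intro u hu
        simp only [coe_filter, Set.mem_ofPred_eq, mem_univ, true_and] at hu ⊢
        exact hu.2
      rw [card_eq_sum_card_fiberwise this]
      apply sum_congr rfl
      intro j hj
      rw [mem_filter] at hj
      congr 1
      ext u
      simp only [mem_filter]
      constructor
      · rintro ⟨⟨h1, _⟩, h3⟩
        exact ⟨h1, h3⟩
      · rintro ⟨h1, h3⟩
        exact ⟨⟨h1, by rw [h3]; exact hj.2⟩, h3⟩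
    rw [e1]
    have e2 : ∑ j ∈ univ.filter (fun j => Hadj h v j), w j
        = ∑ j ∈ univ.filter (fun j => Hadj h v j), ∑ s ∈ range F, (if s < w j then 1 else 0) := by
      apply sum_congr rfl
      intro j _
      exact hw j
    rw [e2, sum_comm]
    apply sum_congr rfl
    intro s _
    rw [← card_filter]
    congr 1
    ext j
    simp only [M, mem_filter, mem_univ, true_and]
    tauto
  have hsumM : ∑ s ∈ range F, (#(M s) : ℝ) = y := by
    have e1 : ∑ s ∈ range F, #(M s) = yy m := by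
      have e2 : ∀ s, #(M s) = ∑ j, if s < w j then 1 else 0 := by
        intro s
        simp only [M, card_filter]
      simp_rw [e2]
      rw [sum_comm]
      simp_rw [← hw]
      rw [← hI]
      have : Set.MapsTo c (I : Set V) ((univ : Finset (Fin (m ^ 2))) : Set (Fin (m ^ 2))) := by
        intro u _
        simp
      rw [card_eq_sum_card_fiberwise this]
    rw [hy, ← e1]
    push_cast
    rfl
  have hMle : ∀ s ∈ range F, #(M s) ≤ yy m := by
    intro s hs
    have : (#(M s) : ℝ) ≤ ∑ s ∈ range F, (#(M s) : ℝ) :=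
      single_le_sum (f := fun s => (#(M s) : ℝ)) (fun _ _ => Nat.cast_nonneg _) hs
    rw [hsumM, hy] at this
    exact_mod_cast this
  -- weights
  let ω : ℕ → ℝ := fun s => (#(M s) : ℝ) / y + 1 / F
  have hω0 : ∀ s, 0 < ω s := by
    intro s
    have : 0 < 1 / (F : ℝ) := by positivity
    have h2 : 0 ≤ (#(M s) : ℝ) / y := div_nonneg (Nat.cast_nonneg _) hy0.le
    simp only [ω]
    linarith
  have hωsum : ∑ s ∈ range F, ω s = 2 := by
    simp only [ω]
    rw [sum_add_distrib, ← sum_div, hsumM, sum_const, card_range, nsmul_eq_mul,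
      div_self hy0.ne', mul_one_div_cancel hF0.ne']
    norm_num
  have hcs : ∀ v, (#{u ∈ I | Hadj h v (c u)} : ℝ) ^ 2 ≤
      2 * ∑ s ∈ range F, (#{j ∈ M s | Hadj h v j} : ℝ) ^ 2 / ω s := by
    intro v
    have e1 : (#{u ∈ I | Hadj h v (c u)} : ℝ) = ∑ s ∈ range F, (#{j ∈ M s | Hadj h v j} : ℝ) := by
      rw [hdeg v]
      push_cast
      rfl
    rw [e1]
    have := sum_sq_le_sum_mul_sum_of_sq_le_mul (range F)
      (r := fun s => (#{j ∈ M s | Hadj h v j} : ℝ)) (f := ω)
      (g := fun s => (#{j ∈ M s | Hadj h v j} : ℝ) ^ 2 / ω s)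
      (fun s _ => (hω0 s).le) (fun s _ => div_nonneg (sq_nonneg _) (hω0 s).le)
      (fun s _ => by
        have := (hω0 s).ne'
        exact le_of_eq (mul_div_cancel₀ _ this).symm)
    rw [hωsum] at this
    exact this
  calc ∑ v, (#{u ∈ I | Hadj h v (c u)} : ℝ) ^ 2
      ≤ ∑ v, 2 * ∑ s ∈ range F, (#{j ∈ M s | Hadj h v j} : ℝ) ^ 2 / ω s :=
        sum_le_sum fun v _ => hcs v
    _ = 2 * ∑ s ∈ range F, (∑ v, (#{j ∈ M s | Hadj h v j} : ℝ) ^ 2) / ω s := by
        rw [← mul_sum, sum_comm]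
        simp_rw [sum_div]
    _ ≤ 2 * ∑ s ∈ range F, (4 * TT m #(M s)) / ω s := by
        apply mul_le_mul_of_nonneg_left _ (by norm_num)
        apply sum_le_sum
        intro s hs
        exact div_le_div_of_nonneg_right (good_sq m h hg (M s) (hMle s hs)) (hω0 s).le
    _ ≤ 2 * ∑ s ∈ range F, (4 * 176 * ((m : ℝ) / 200 * F + y / 40000)) * #(M s) := by
        apply mul_le_mul_of_nonneg_left _ (by norm_num)
        apply sum_le_sum
        intro s hs
        unfold TT
        rw [div_le_iff₀ (hω0 s)]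
        set r : ℝ := (#(M s) : ℝ) with hr
        have hr0 : 0 ≤ r := Nat.cast_nonneg _
        have e1 : r ≤ r * (F * ω s) := by
          have : 1 ≤ F * ω s := by
            simp only [ω]
            rw [mul_add]
            have h1 : (F : ℝ) * (1 / F) = 1 := mul_one_div_cancel hF0.ne'
            rw [h1]
            have : 0 ≤ (F : ℝ) * ((#(M s) : ℝ) / y) :=
              mul_nonneg hF0.le (div_nonneg (Nat.cast_nonneg _) hy0.le)
            linarith
          nlinarith
        have e2 : r ^ 2 ≤ r * (y * ω s) := by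
          have : r ≤ y * ω s := by
            simp only [ω]
            rw [mul_add, ← hr]
            have h1 : y * (r / y) = r := mul_div_cancel₀ r hy0.ne'
            rw [h1]
            have : 0 ≤ y * (1 / F) := by positivity
            linarith
          nlinarith
        have e3 : (m : ℝ) / 200 * r ≤ (m : ℝ) / 200 * (r * (F * ω s)) := by gcongr
        nlinarith
    _ = 8 * 176 * ((m : ℝ) / 200 * F + y / 40000) * y := by
        rw [← mul_sum, hsumM]
        ring
    _ ≤ y ^ 2 / 20 := by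
        have : (m : ℝ) / 200 * F = y / 500000 := by
          rw [hyval, hF]
          push_cast
          ring
        rw [this]
        nlinarith [sq_nonneg y]

end Pool.Agent.H54.Kim
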