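import Pool.Agent.H54.Kim.Maps

/-!
# Triangle-free graphs with small independence number (constant-factor form of Kim's theorem)
-/

set_option maxHeartbeats 1000000

open Finset

namespace Pool.Agent.H54.Kim

variable {N q : ℕ} [NeZero q]

/-- pairs of vertices which are closed by the graph `h` via the map `c` -/
def Cl {V : Type*} (c : V → Fin N) (h : Fin N × Fin N → Fin q) (u w : V) : Prop :=
  c u = c w ∨ ∃ v, Hadj h v (c u) ∧ Hadj h v (c w)

lemma Cl_symm {V : Type*} {c : V → Fin N} {h : Fin N × Fin N → Fin q} {u w : V}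
    (hu : Cl c h u w) : Cl c h w u := by
  rcases hu with h1 | ⟨v, h1, h2⟩
  · left; exact h1.symm
  · right; exact ⟨v, h2, h1⟩

/-- open pairs as pairs in `Fin N × Fin N` -/
noncomputable def OO {V : Type*} (c c' : V → Fin N) (h' : Fin N × Fin N → Fin q)
    (I : Finset V) : Finset (Fin N × Fin N) := by
  classical exact
    ((I ×ˢ I).filter fun p => c p.2 < c p.1 ∧ ¬ Cl c' h' p.1 p.2).image fun p => (c p.1, c p.2)

lemma pr_fst_le {X Y : Type*} [Fintype X] [Fintype Y] [Nonempty Y] (P : X → Y → Prop) (δ : ℝ)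
    (h : ∀ y, pr (fun x => P x y) ≤ δ) : pr (fun z : X × Y => P z.1 z.2) ≤ δ := by
  unfold pr avg at *
  rw [Fintype.card_prod, ← univ_product_univ, sum_product_right]
  have hY : (0 : ℝ) < Fintype.card Y := by exact_mod_cast Fintype.card_pos
  rcases Nat.eq_zero_or_pos (Fintype.card X) with h0 | hX
  · have := h (Classical.arbitrary Y)
    rw [h0] at this ⊢
    simp only [div_zero, zero_mul, CharP.cast_eq_zero] at this ⊢
    exact this
  · have hX' : (0 : ℝ) < Fintype.card X := by exact_mod_cast hX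
    push_cast
    rw [div_le_iff₀ (by positivity)]
    calc ∑ y : Y, ∑ x : X, ind (P x y) ≤ ∑ y : Y, δ * Fintype.card X := by
          apply sum_le_sum
          intro y _
          have := h y
          rwa [div_le_iff₀ hX'] at this
      _ = δ * (Fintype.card X * Fintype.card Y) := by
          rw [sum_const, card_univ, nsmul_eq_mul]
          ring

lemma pr_snd_le {X Y : Type*} [Fintype X] [Fintype Y] [Nonempty X] (P : X → Y → Prop) (δ : ℝ)
    (h : ∀ x, pr (fun y => P x y) ≤ δ) : pr (fun z : X × Y => P z.1 z.2) ≤ δ := by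
  have h1 := pr_fst_le (X := Y) (Y := X) (fun y x => P x y) δ h
  rw [← pr_equiv (Equiv.prodComm X Y)] at h1
  exact h1

/-- number of open pairs is large -/
lemma card_OO (m : ℕ) (hm : Big m) [NeZero (200 * m)] {V : Type*} [DecidableEq V]
    (c c' : V → Fin (m ^ 2)) (h' : Fin (m ^ 2) × Fin (m ^ 2) → Fin (200 * m)) (hg : Good m h')
    (I : Finset V) (hI : #I = yy m) (hfib : ∀ j, #{u ∈ I | c' u = j} ≤ 8 * LL m)
    (hinj : Set.InjOn c (I : Set V)) : (yy m : ℝ) ^ 2 / 5 ≤ #(OO c c' h' I) := by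
  classical
  have hm10 : (10 : ℝ) ≤ m := by exact_mod_cast hm.m_ge
  have hLL1 : (1 : ℝ) ≤ LL m := by
    have := LL_pos m
    exact_mod_cast this
  have hyval : (yy m : ℝ) = 20000 * m * LL m := by unfold yy; push_cast; ring
  have hw := good_weighted m hm h' hg c' I hI hfib
  -- the set of oriented open pairs
  set A := (I ×ˢ I).filter fun p => c p.2 < c p.1 ∧ ¬ Cl c' h' p.1 p.2 with hA
  set B := (I ×ˢ I).filter fun p => c p.1 < c p.2 ∧ ¬ Cl c' h' p.1 p.2 with hB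
  set C := (I ×ˢ I).filter fun p => c p.1 = c p.2 with hC
  set D := (I ×ˢ I).filter fun p => c' p.1 = c' p.2 with hD
  set E := (I ×ˢ I).filter fun p => ∃ v, Hadj h' v (c' p.1) ∧ Hadj h' v (c' p.2) with hE
  have hOO : #(OO c c' h' I) = #A := by
    unfold OO
    rw [card_image_of_injOn]
    intro p hp p' hp' hpp
    simp only [coe_filter, mem_product, Set.mem_ofPred_eq] at hp hp'
    have e := Prod.mk.inj hpp
    exact Prod.ext (hinj hp.1.1 hp'.1.1 e.1) (hinj hp.1.2 hp'.1.2 e.2)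
  have hAB : #B = #A := by
    apply card_bij (fun p _ => (p.2, p.1))
    · intro p hp
      rw [hB, mem_filter, mem_product] at hp
      rw [hA, mem_filter, mem_product]
      exact ⟨⟨hp.1.2, hp.1.1⟩, hp.2.1, fun h => hp.2.2 (Cl_symm h)⟩
    · intro p _ p' _ hpp
      have e := Prod.mk.inj hpp
      exact Prod.ext e.2 e.1
    · intro p hp
      rw [hA, mem_filter, mem_product] at hp
      refine ⟨(p.2, p.1), ?_, rfl⟩
      rw [hB, mem_filter, mem_product]
      exact ⟨⟨hp.1.2, hp.1.1⟩, hp.2.1, fun h => hp.2.2 (Cl_symm h)⟩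
  have hcover : I ×ˢ I ⊆ A ∪ (B ∪ (C ∪ (D ∪ E))) := by
    intro p hp
    simp only [hA, hB, hC, hD, hE, mem_union, mem_filter]
    by_cases h1 : Cl c' h' p.1 p.2
    · rcases h1 with h1 | h1
      · right; right; right; left; exact ⟨hp, h1⟩
      · right; right; right; right; exact ⟨hp, h1⟩
    · rcases lt_trichotomy (c p.1) (c p.2) with h2 | h2 | h2
      · right; left; exact ⟨hp, h2, h1⟩
      · right; right; left; exact ⟨hp, h2⟩
      · left; exact ⟨hp, h2, h1⟩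
  have hcard : (yy m) ^ 2 ≤ #A + (#B + (#C + (#D + #E))) := by
    have h1 := card_le_card hcover
    rw [card_product, hI] at h1
    have h2 := card_union_le A (B ∪ (C ∪ (D ∪ E)))
    have h3 := card_union_le B (C ∪ (D ∪ E))
    have h4 := card_union_le C (D ∪ E)
    have h5 := card_union_le D E
    rw [sq]
    omega
  have hCle : #C ≤ yy m := by
    rw [← hI]
    apply card_le_card_of_injOn (fun p => p.1)
    · intro p hp
      rw [hC, mem_coe, mem_filter, mem_product] at hp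
      exact hp.1.1
    · intro p hp p' hp' hpp
      rw [hC, mem_coe, mem_filter, mem_product] at hp hp'
      have hpp' : p.1 = p'.1 := hpp
      refine Prod.ext hpp' ?_
      apply hinj hp.1.2 hp'.1.2
      rw [← hp.2, ← hp'.2, hpp']
  have hDle : #D ≤ yy m * (8 * LL m) := by
    have h1 : #D = ∑ u ∈ I, #{w ∈ I | c' u = c' w} := by
      rw [hD, card_filter, sum_product]
      apply sum_congr rfl
      intro u _
      rw [card_filter]
    rw [h1]
    calc ∑ u ∈ I, #{w ∈ I | c' u = c' w} ≤ ∑ u ∈ I, 8 * LL m := by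
          apply sum_le_sum
          intro u _
          have := hfib (c' u)
          simp_rw [eq_comm (a := c' u)]
          exact this
      _ = yy m * (8 * LL m) := by rw [sum_const, hI, smul_eq_mul]
  have hEle : (#E : ℝ) ≤ (yy m : ℝ) ^ 2 / 20 := by
    refine le_trans ?_ hw
    have h1 : E ⊆ univ.biUnion fun v => (({u ∈ I | Hadj h' v (c' u)} : Finset V) ×ˢ
        ({u ∈ I | Hadj h' v (c' u)} : Finset V)) := by
      intro p hp
      rw [hE, mem_filter, mem_product] at hp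
      obtain ⟨⟨h1, h2⟩, v, h3, h4⟩ := hp
      rw [mem_biUnion]
      refine ⟨v, mem_univ _, ?_⟩
      rw [mem_product, mem_filter, mem_filter]
      exact ⟨⟨h1, h3⟩, h2, h4⟩
    have h2 := (card_le_card h1).trans card_biUnion_le
    calc (#E : ℝ) ≤ ((∑ v, #((({u ∈ I | Hadj h' v (c' u)} : Finset V) ×ˢ
        ({u ∈ I | Hadj h' v (c' u)} : Finset V))) : ℕ) : ℝ) := by exact_mod_cast h2
      _ = ∑ v, (#{u ∈ I | Hadj h' v (c' u)} : ℝ) ^ 2 := by
        push_cast
        apply sum_congr rfl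
        intro v _
        rw [card_product]
        push_cast
        ring
  rw [hOO]
  rw [hAB] at hcard
  have h1 : ((yy m : ℝ)) ^ 2 ≤ #A + (#A + (yy m + (yy m * (8 * LL m) + (yy m : ℝ) ^ 2 / 20))) := by
    have h2 : ((yy m : ℝ)) ^ 2 ≤ #A + (#A + (#C + (#D + #E))) := by exact_mod_cast hcard
    have h3 : (#C : ℝ) ≤ yy m := by exact_mod_cast hCle
    have h4 : (#D : ℝ) ≤ yy m * (8 * LL m) := by exact_mod_cast hDle
    linarith
  have h2 : (yy m : ℝ) + yy m * (8 * LL m) ≤ (yy m : ℝ) ^ 2 / 20 := by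
    have h3 : 1 + 8 * (LL m : ℝ) ≤ (yy m : ℝ) / 20 := by
      rw [hyval]
      nlinarith
    have h4 : (0 : ℝ) ≤ yy m := Nat.cast_nonneg _
    nlinarith
  have h3 : (0 : ℝ) ≤ (yy m : ℝ) ^ 2 := by positivity
  linarith

/-- one-sided statement: for fixed good `h'`, most `h` work. -/
lemma side (m : ℕ) (hm : Big m) [NeZero (200 * m)] {V : Type*} [Fintype V] [DecidableEq V]
    (hV : Fintype.card V = m ^ 2 * LL m)
    (c c' : V → Fin (m ^ 2)) (h' : Fin (m ^ 2) × Fin (m ^ 2) → Fin (200 * m))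
    (hfib : ∀ j, #{u | c' u = j} ≤ 8 * LL m) :
    pr (fun h : Fin (m ^ 2) × Fin (m ^ 2) → Fin (200 * m) => Good m h' ∧
      ∃ I : Finset V, #I = yy m ∧ Set.InjOn c (I : Set V) ∧
        ∀ e ∈ OO c c' h' I, ¬ (h e = 0 ∧ e ∉ removed h)) ≤ 1 / 100 := by
  classical
  by_cases hg : Good m h'
  · set 𝒥 : Finset (Finset V) := (powersetCard (yy m) univ).filter
      (fun I => Set.InjOn c (I : Set V)) with h𝒥
    have hmem : ∀ I ∈ 𝒥, #I = yy m ∧ Set.InjOn c (I : Set V) := by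
      intro I hI
      rw [h𝒥, mem_filter, mem_powersetCard] at hI
      exact ⟨hI.1.2, hI.2⟩
    have key := edges_exist m hm 𝒥 (fun I => I.image c) (fun I => OO c c' h' I) (by
      calc #𝒥 ≤ #(powersetCard (yy m) (univ : Finset V)) := card_filter_le _ _
        _ = Nat.choose (m ^ 2 * LL m) (yy m) := by rw [card_powersetCard, card_univ, hV]
        _ ≤ _ := Nat.choose_le_pow _ _) (by
      intro I hI
      rw [card_image_of_injOn (hmem I hI).2]
      exact (hmem I hI).1) (by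
      intro I _ e he
      unfold OO at he
      rw [mem_image] at he
      obtain ⟨p, hp, rfl⟩ := he
      rw [mem_filter, mem_product] at hp
      rw [mem_product]
      exact ⟨mem_image_of_mem _ hp.1.1, mem_image_of_mem _ hp.1.2⟩) (by
      intro I hI
      apply card_OO m hm c c' h' hg I (hmem I hI).1 _ (hmem I hI).2
      intro j
      refine le_trans (card_le_card ?_) (hfib j)
      intro u hu
      rw [mem_filter] at hu ⊢
      exact ⟨mem_univ _, hu.2⟩)
    refine le_trans (pr_mono ?_) key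
    rintro h ⟨_, I, h1, h2, h3⟩
    refine ⟨I, ?_, h3⟩
    rw [h𝒥, mem_filter, mem_powersetCard]
    exact ⟨⟨subset_univ _, h1⟩, h2⟩
  · have : pr (fun h : Fin (m ^ 2) × Fin (m ^ 2) → Fin (200 * m) => Good m h' ∧
      ∃ I : Finset V, #I = yy m ∧ Set.InjOn c (I : Set V) ∧
        ∀ e ∈ OO c c' h' I, ¬ (h e = 0 ∧ e ∉ removed h)) = 0 := by
      unfold pr
      have : ∀ h : Fin (m ^ 2) × Fin (m ^ 2) → Fin (200 * m), ind (Good m h' ∧
        ∃ I : Finset V, #I = yy m ∧ Set.InjOn c (I : Set V) ∧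
          ∀ e ∈ OO c c' h' I, ¬ (h e = 0 ∧ e ∉ removed h)) = 0 := by
        intro h
        apply ind_neg
        rintro ⟨h1, _⟩
        exact hg h1
      simp_rw [this]
      unfold avg
      simp
    rw [this]
    norm_num

/-- the final graph -/
def GG {V : Type*} (c₁ c₂ : V → Fin N) (h₁ h₂ : Fin N × Fin N → Fin q) : SimpleGraph V where
  Adj u w := (Hpr h₁ (c₁ u) (c₁ w) ∧ ¬ Cl c₂ h₂ u w) ∨ (Hpr h₂ (c₂ u) (c₂ w) ∧ ¬ Cl c₁ h₁ u w)
  symm.symm u w := by
    rintro (⟨h1, h2⟩ | ⟨h1, h2⟩)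
    · left; exact ⟨Hpr_symm h1, fun h => h2 (Cl_symm h)⟩
    · right; exact ⟨Hpr_symm h1, fun h => h2 (Cl_symm h)⟩
  loopless.irrefl u := by
    rintro (⟨h1, h2⟩ | ⟨h1, h2⟩)
    · exact Hpr_ne h1 rfl
    · exact Hpr_ne h1 rfl

lemma GG_cliqueFree {V : Type*} (c₁ c₂ : V → Fin N) (h₁ h₂ : Fin N × Fin N → Fin q) :
    (GG c₁ c₂ h₁ h₂).CliqueFree 3 := by
  classical
  intro t ht
  rw [SimpleGraph.is3Clique_iff] at ht
  obtain ⟨x, y, z, hxy, hxz, hyz, rfl⟩ := ht
  -- two edges of one colour and one of another is impossible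
  have two : ∀ (c : V → Fin N) (h : Fin N × Fin N → Fin q) (u v w : V),
      Hpr h (c u) (c v) → Hpr h (c v) (c w) → Cl c h u w := by
    intro c h u v w a b
    right
    exact ⟨c v, Hadj_symm (Hpr_Hadj a), Hpr_Hadj b⟩
  rcases hxy with ⟨a1, a2⟩ | ⟨a1, a2⟩ <;> rcases hxz with ⟨b1, b2⟩ | ⟨b1, b2⟩ <;>
    rcases hyz with ⟨d1, d2⟩ | ⟨d1, d2⟩
  · exact no_triangle h₁ _ _ _ a1 d1 b1
  · exact d2 (two c₁ h₁ y x z (Hpr_symm a1) b1)
  · exact b2 (two c₁ h₁ x y z a1 d1)
  · exact a2 (two c₂ h₂ x z y b1 (Hpr_symm d1))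
  · exact a2 (two c₁ h₁ x z y b1 (Hpr_symm d1))
  · exact b2 (two c₂ h₂ x y z a1 d1)
  · exact d2 (two c₂ h₂ y x z (Hpr_symm a1) b1)
  · exact no_triangle h₂ _ _ _ a1 d1 b1

/-- sample space -/
abbrev OM (m : ℕ) : Type := Fin (m ^ 2) × Fin (m ^ 2) → Fin (200 * m)

/-- bad event for one side -/
def BadSide (m : ℕ) [NeZero (200 * m)] (c c' : VV m → Fin (m ^ 2)) (h h' : OM m) : Prop :=
  Good m h' ∧ ∃ I : Finset (VV m), #I = yy m ∧ Set.InjOn c (I : Set (VV m)) ∧
        ∀ e ∈ OO c c' h' I, ¬ (h e = 0 ∧ e ∉ removed h)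

lemma exists_pair (m : ℕ) (hm : Big m) [NeZero (200 * m)] (c₁ c₂ : VV m → Fin (m ^ 2))
    (hc₁ : ∀ j, #{u | c₁ u = j} ≤ 8 * LL m) (hc₂ : ∀ j, #{u | c₂ u = j} ≤ 8 * LL m) :
    ∃ h₁ h₂ : OM m, Good m h₁ ∧ Good m h₂ ∧ ¬ BadSide m c₁ c₂ h₁ h₂ ∧ ¬ BadSide m c₂ c₁ h₂ h₁ := by
  have hng := pr_not_good m hm
  have b1 : pr (fun z : OM m × OM m => ¬ Good m z.1) ≤ 3 / 100 :=
    pr_fst_le (fun x _ => ¬ Good m x) _ (fun _ => hng)
  have b2 : pr (fun z : OM m × OM m => ¬ Good m z.2) ≤ 3 / 100 :=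
    pr_snd_le (fun _ y => ¬ Good m y) _ (fun _ => hng)
  have b3 : pr (fun z : OM m × OM m => BadSide m c₁ c₂ z.1 z.2) ≤ 1 / 100 :=
    pr_fst_le (fun h h' => BadSide m c₁ c₂ h h') _
      (fun h' => side m hm (card_VV m) c₁ c₂ h' hc₂)
  have b4 : pr (fun z : OM m × OM m => BadSide m c₂ c₁ z.2 z.1) ≤ 1 / 100 :=
    pr_snd_le (fun h' h => BadSide m c₂ c₁ h h') _
      (fun h' => side m hm (card_VV m) c₂ c₁ h' hc₁)
  have b12 := le_trans (pr_or_le _ _) (add_le_add b1 b2)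
  have b34 := le_trans (pr_or_le _ _) (add_le_add b3 b4)
  have btot := le_trans (pr_or_le _ _) (add_le_add b12 b34)
  have hlt : (3 / 100 + 3 / 100 + (1 / 100 + 1 / 100) : ℝ) < 1 := by norm_num
  obtain ⟨z, hz⟩ := exists_of_pr_lt (lt_of_le_of_lt btot hlt)
  rw [not_or, not_or, not_or, not_not, not_not] at hz
  exact ⟨z.1, z.2, hz.1.1, hz.1.2, hz.2.1, hz.2.2⟩

lemma exists_transversal {V W : Type*} [DecidableEq V] [DecidableEq W] (c : V → W) (I₀ : Finset V)
    (y : ℕ) (hc : y < #(I₀.image c)) :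
    ∃ I : Finset V, I ⊆ I₀ ∧ #I = y ∧ Set.InjOn c (I : Set V) := by
  have hne : Nonempty V := by
    obtain ⟨w, hw⟩ := card_pos.1 (lt_of_le_of_lt (Nat.zero_le _) hc)
    rw [mem_image] at hw
    exact ⟨hw.choose⟩
  obtain ⟨T, hT1, hT2⟩ := exists_subset_card_eq hc.le
  have : ∀ j ∈ T, ∃ u ∈ I₀, c u = j := by
    intro j hj
    have := hT1 hj
    rw [mem_image] at this
    exact this
  choose! f hf1 hf2 using this
  have hfinj : Set.InjOn f (T : Set W) := by
    intro a ha b hb hab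
    rw [← hf2 a ha, ← hf2 b hb, hab]
  refine ⟨T.image f, ?_, ?_, ?_⟩
  · intro u hu
    rw [mem_image] at hu
    obtain ⟨j, hj, rfl⟩ := hu
    exact hf1 j hj
  · rw [card_image_of_injOn hfinj, hT2]
  · intro u hu w hw huw
    rw [mem_coe, mem_image] at hu hw
    obtain ⟨a, ha, rfl⟩ := hu
    obtain ⟨b, hb, rfl⟩ := hw
    rw [hf2 a ha, hf2 b hb] at huw
    rw [huw]

lemma exists_open_edge (m : ℕ) [NeZero (200 * m)] (c c' : VV m → Fin (m ^ 2))
    (h h' : OM m) (hg : Good m h') (hbad : ¬ BadSide m c c' h h') (I : Finset (VV m))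
    (hI : #I = yy m) (hinj : Set.InjOn c (I : Set (VV m))) :
    ∃ u ∈ I, ∃ w ∈ I, Hpr h (c u) (c w) ∧ ¬ Cl c' h' u w := by
  classical
  by_contra hcon
  apply hbad
  refine ⟨hg, I, hI, hinj, ?_⟩
  intro e he hee
  unfold OO at he
  rw [mem_image] at he
  obtain ⟨p, hp, rfl⟩ := he
  rw [mem_filter, mem_product] at hp
  apply hcon
  exact ⟨p.1, hp.1.1, p.2, hp.1.2, Or.inl ⟨hp.2.1, hee.1, hee.2⟩, hp.2.2⟩

/-- **Kim's theorem for special sizes.** -/
theorem kim_special (m : ℕ) (hm : Big m) : ∃ G : SimpleGraph (VV m), G.CliqueFree 3 ∧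
    ∀ s : Finset (VV m), G.IsIndepSet (s : Set (VV m)) → #s < 5 * yy m := by
  have hm0 : 0 < 200 * m := by
    have := hm.m_ge
    omega
  have : NeZero (200 * m) := ⟨hm0.ne'⟩
  obtain ⟨c₂, hc₂, hZ⟩ := exists_map m hm
  have hc₁ : ∀ j, #{u : VV m | u.1 = j} ≤ 8 * LL m := by
    intro j
    have : #{u : VV m | u.1 = j} ≤
        #(({j} : Finset (Fin (m ^ 2))) ×ˢ (univ : Finset (Fin (LL m)))) := by
      apply card_le_card
      intro u hu
      rw [mem_filter] at hu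
      rw [mem_product, mem_singleton]
      exact ⟨hu.2, mem_univ _⟩
    rw [card_product, card_singleton, card_univ, Fintype.card_fin] at this
    omega
  obtain ⟨h₁, h₂, g1, g2, e1, e2⟩ := exists_pair m hm Prod.fst c₂ hc₁ hc₂
  refine ⟨GG Prod.fst c₂ h₁ h₂, GG_cliqueFree _ _ _ _, ?_⟩
  intro s hs
  by_contra hcon
  push Not at hcon
  obtain ⟨I₀, hI₀s, hI₀⟩ := exists_subset_card_eq hcon
  have hind : ∀ u ∈ I₀, ∀ w ∈ I₀, ¬ (GG Prod.fst c₂ h₁ h₂).Adj u w := by
    intro u hu w hw hadj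
    exact hs (hI₀s hu) (hI₀s hw) hadj.ne hadj
  rcases hZ I₀ hI₀ with hz | hz
  · obtain ⟨I, hI1, hI2, hI3⟩ := exists_transversal Prod.fst I₀ _ hz
    obtain ⟨u, hu, w, hw, h1, h2⟩ := exists_open_edge m _ _ _ _ g2 e1 I hI2 hI3
    exact hind u (hI1 hu) w (hI1 hw) (Or.inl ⟨h1, h2⟩)
  · obtain ⟨I, hI1, hI2, hI3⟩ := exists_transversal c₂ I₀ _ hz
    obtain ⟨u, hu, w, hw, h1, h2⟩ := exists_open_edge m _ _ _ _ g1 e2 I hI2 hI3
    exact hind u (hI1 hu) w (hI1 hw) (Or.inr ⟨h1, h2⟩)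

end Pool.Agent.H54.Kim
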