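import Pool.Agent.H54.Kim.Exist

/-!
# The second map
-/

set_option maxHeartbeats 1000000

open Finset

namespace Pool.Agent.H54.Kim

/-- the vertex set -/
abbrev VV (m : ℕ) : Type := Fin (m ^ 2) × Fin (LL m)

lemma card_VV (m : ℕ) : Fintype.card (VV m) = m ^ 2 * LL m := by
  simp [VV]

lemma LL_pos (m : ℕ) : 0 < LL m := by unfold LL; omega

lemma fibre_tail (m : ℕ) (hm : Big m) [NeZero (m ^ 2)] :
    pr (fun c : VV m → Fin (m ^ 2) => ∃ j ∈ (univ : Finset (Fin (m ^ 2))),
      8 * LL m < #{u ∈ univ | c u = j}) ≤ 1 / 100 := by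
  have hm10 : (10 : ℝ) ≤ m := by exact_mod_cast hm.m_ge
  have hm0 : (0 : ℝ) < m := by linarith
  refine le_trans (pr_exists_le _ _) ?_
  have h1 : ∀ j ∈ (univ : Finset (Fin (m ^ 2))), pr (fun c : VV m → Fin (m ^ 2) =>
      8 * LL m < #{u ∈ univ | c u = j}) ≤ 1 / (m : ℝ) ^ 4 / 100 := by
    intro j _
    calc pr (fun c : VV m → Fin (m ^ 2) => 8 * LL m < #{u ∈ univ | c u = j})
        ≤ avg (fun c : VV m → Fin (m ^ 2) => Real.exp (-(8 * LL m : ℝ)) *
            (Real.exp 1) ^ #{u ∈ univ | c u = j}) := by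
          apply pr_le_avg
          · intro c; positivity
          · intro c hc
            rw [← Real.exp_nat_mul, ← Real.exp_add]
            apply Real.one_le_exp
            have : ((8 * LL m : ℕ) : ℝ) < #{u ∈ univ | c u = j} := by exact_mod_cast hc
            push_cast at this
            linarith
      _ ≤ Real.exp (-(8 * LL m : ℝ)) * Real.exp (2 * LL m) := by
          rw [avg_const_mul]
          apply mul_le_mul_of_nonneg_left _ (Real.exp_pos _).le
          have h2 := avg_gf_le (κ := Fin (m ^ 2)) (univ : Finset (VV m)) (fun _ => j) (Real.exp 1)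
            (Real.exp_pos _).le
          refine le_trans h2 ?_
          apply Real.exp_le_exp.2
          rw [card_univ, card_VV, Fintype.card_fin]
          push_cast
          have he : Real.exp 1 - 1 ≤ 2 := by
            have := Real.exp_one_lt_d9
            linarith
          have hL : (0 : ℝ) ≤ LL m := Nat.cast_nonneg _
          rw [div_le_iff₀ (by positivity)]
          have : (m : ℝ) ^ 2 * LL m * (Real.exp 1 - 1) ≤ (m : ℝ) ^ 2 * LL m * 2 := by gcongr
          linarith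
      _ = Real.exp (-(LL m : ℝ)) ^ 6 := by
          rw [← Real.exp_add, ← Real.exp_nat_mul]
          congr 1
          push_cast
          ring
      _ ≤ (1 / (m : ℝ)) ^ 6 := by
          apply pow_le_pow_left₀ (Real.exp_pos _).le
          rw [Real.exp_neg, ← one_div]
          apply one_div_le_one_div_of_le hm0
          rw [← Real.exp_log hm0]
          exact Real.exp_le_exp.2 hm.h5
      _ ≤ 1 / (m : ℝ) ^ 4 / 100 := by
          rw [div_pow, one_pow, div_div]
          apply one_div_le_one_div_of_le (by positivity)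
          have : (100 : ℝ) ≤ (m : ℝ) ^ 2 := by nlinarith
          calc (m : ℝ) ^ 4 * 100 ≤ (m : ℝ) ^ 4 * (m : ℝ) ^ 2 := by gcongr
            _ = (m : ℝ) ^ 6 := by ring
  refine le_trans (sum_le_sum h1) ?_
  rw [sum_const, card_univ, Fintype.card_fin, nsmul_eq_mul]
  push_cast
  have h2 : (m : ℝ) ^ 2 * (1 / (m : ℝ) ^ 4 / 100) = 1 / (m : ℝ) ^ 2 / 100 := by
    field_simp
  rw [h2]
  have h3 : 1 / (m : ℝ) ^ 2 ≤ 1 := by
    rw [div_le_one (by positivity)]
    nlinarith
  linarith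

lemma yy_pos (m : ℕ) (hm : Big m) : 1 ≤ yy m := by
  unfold yy
  have := hm.m_ge
  have := LL_pos m
  have : 1 ≤ m * LL m := Nat.mul_pos (by omega) (by omega)
  nlinarith

lemma yy_le (m : ℕ) (hm : Big m) : yy m ≤ m ^ 2 := by
  have h7 := hm.h7
  have hLL1 : (1 : ℝ) ≤ LL m := by
    have := LL_pos m
    exact_mod_cast this
  have h1 : (LL m : ℝ) ≤ (LL m : ℝ) ^ 10 := by
    calc (LL m : ℝ) = (LL m : ℝ) ^ 1 := (pow_one _).symm
      _ ≤ (LL m : ℝ) ^ 10 := pow_le_pow_right₀ hLL1 (by norm_num)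
  have h2 : 20000 * (LL m : ℝ) ≤ m := by
    have : (20000 : ℝ) ≤ 2 * 11000 ^ 5 := by norm_num
    nlinarith
  have h3 : 20000 * LL m ≤ m := by exact_mod_cast h2
  unfold yy
  nlinarith

lemma dense_tail (m : ℕ) (hm : Big m) [NeZero (m ^ 2)] :
    pr (fun c : VV m → Fin (m ^ 2) =>
      ∃ T ∈ ((powersetCard (yy m) (univ : Finset (Fin (m ^ 2)))) ×ˢ
        (powersetCard (yy m) (univ : Finset (Fin (m ^ 2))))),
      ∃ I ∈ powersetCard (5 * yy m) (T.1 ×ˢ (univ : Finset (Fin (LL m)))), ∀ u ∈ I, c u ∈ T.2) ≤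
      1 / 100 := by
  have hm10 : (10 : ℝ) ≤ m := by exact_mod_cast hm.m_ge
  have hm0 : (0 : ℝ) < m := by linarith
  set y := yy m with hy
  have hy1 : 1 ≤ y := yy_pos m hm
  have hy0 : (0 : ℝ) < y := by exact_mod_cast hy1
  refine le_trans (pr_exists_le _ _) ?_
  set B : ℝ := ((y * LL m : ℕ) : ℝ) ^ (5 * y) / (5 * y).factorial * ((y : ℝ) / (m : ℝ) ^ 2) ^ (5 * y)
    with hB
  have h1 : ∀ T ∈ ((powersetCard y (univ : Finset (Fin (m ^ 2)))) ×ˢ
        (powersetCard y (univ : Finset (Fin (m ^ 2))))),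
      pr (fun c : VV m → Fin (m ^ 2) =>
        ∃ I ∈ powersetCard (5 * y) (T.1 ×ˢ (univ : Finset (Fin (LL m)))), ∀ u ∈ I, c u ∈ T.2) ≤ B := by
    intro T hT
    rw [mem_product, mem_powersetCard, mem_powersetCard] at hT
    refine le_trans (pr_exists_le _ _) ?_
    have h2 : ∀ I ∈ powersetCard (5 * y) (T.1 ×ˢ (univ : Finset (Fin (LL m)))),
        pr (fun c : VV m → Fin (m ^ 2) => ∀ u ∈ I, c u ∈ T.2) ≤ ((y : ℝ) / (m : ℝ) ^ 2) ^ (5 * y) := by
      intro I hI
      rw [mem_powersetCard] at hI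
      rw [pr_forall_mem, hI.2, hT.2.2, Fintype.card_fin]
      push_cast
      exact le_rfl
    refine le_trans (sum_le_sum h2) ?_
    rw [sum_const, card_powersetCard, nsmul_eq_mul, card_product, hT.1.2, card_univ,
      Fintype.card_fin, hB]
    gcongr
    exact Nat.choose_le_pow_div (5 * y) (y * LL m)
  refine le_trans (sum_le_sum h1) ?_
  rw [sum_const, card_product, card_powersetCard, card_univ, Fintype.card_fin, nsmul_eq_mul]
  have h3 : ((Nat.choose (m ^ 2) y * Nat.choose (m ^ 2) y : ℕ) : ℝ) ≤ ((m : ℝ) ^ 4) ^ y := by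
    have h4 : Nat.choose (m ^ 2) y ≤ (m ^ 2) ^ y := Nat.choose_le_pow _ _
    have h5 : Nat.choose (m ^ 2) y * Nat.choose (m ^ 2) y ≤ (m ^ 2) ^ y * (m ^ 2) ^ y :=
      Nat.mul_le_mul h4 h4
    calc ((Nat.choose (m ^ 2) y * Nat.choose (m ^ 2) y : ℕ) : ℝ)
        ≤ (((m ^ 2) ^ y * (m ^ 2) ^ y : ℕ) : ℝ) := by exact_mod_cast h5
      _ = ((m : ℝ) ^ 4) ^ y := by
        push_cast
        rw [← mul_pow]
        congr 1
        ring
  have hB0 : 0 ≤ B := by rw [hB]; positivity
  have h5y : (0 : ℝ) < 5 * y := by positivity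
  have hyval : (y : ℝ) = 20000 * m * LL m := by rw [hy]; unfold yy; push_cast; ring
  have hB2 : B ≤ ((1 / 2) / (m : ℝ) ^ 4) ^ y := by
    have e1 : B = (((LL m : ℝ) * y / (5 * (m : ℝ) ^ 2))) ^ (5 * y) *
        ((5 * y : ℝ) ^ (5 * y) / (5 * y).factorial) := by
      rw [hB]
      have : ((LL m : ℝ) * y / (5 * (m : ℝ) ^ 2)) = (y * LL m) * (y / (m : ℝ) ^ 2) / (5 * y) := by
        field_simp
      have h6 : (((y : ℝ) * LL m) * (y / (m : ℝ) ^ 2) / (5 * y)) ^ (5 * y) * (5 * y : ℝ) ^ (5 * y)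
          = ((y : ℝ) * LL m) ^ (5 * y) * (y / (m : ℝ) ^ 2) ^ (5 * y) := by
        rw [← mul_pow, div_mul_cancel₀ _ h5y.ne', mul_pow]
      rw [this, mul_div_assoc', h6]
      push_cast
      ring
    have e2 : (5 * y : ℝ) ^ (5 * y) / (5 * y).factorial ≤ (Real.exp 1) ^ (5 * y) := by
      have := Real.pow_div_factorial_le_exp (5 * y : ℝ) h5y.le (5 * y)
      refine le_trans this ?_
      rw [← Real.exp_nat_mul]
      apply Real.exp_le_exp.2
      push_cast
      linarith
    rw [e1]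
    calc (((LL m : ℝ) * y / (5 * (m : ℝ) ^ 2))) ^ (5 * y) *
        ((5 * y : ℝ) ^ (5 * y) / (5 * y).factorial)
        ≤ (((LL m : ℝ) * y / (5 * (m : ℝ) ^ 2))) ^ (5 * y) * (Real.exp 1) ^ (5 * y) := by gcongr
      _ = ((((LL m : ℝ) * y / (5 * (m : ℝ) ^ 2)) * Real.exp 1) ^ 5) ^ y := by
        rw [← mul_pow, pow_mul]
      _ ≤ ((1 / 2) / (m : ℝ) ^ 4) ^ y := by
        apply pow_le_pow_left₀ (by positivity)
        have e3 : ((LL m : ℝ) * y / (5 * (m : ℝ) ^ 2)) * Real.exp 1 ≤ 11000 * (LL m : ℝ) ^ 2 / m := by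
          rw [hyval]
          have : ((LL m : ℝ) * (20000 * m * LL m) / (5 * (m : ℝ) ^ 2)) = 4000 * (LL m : ℝ) ^ 2 / m := by
            field_simp
            ring
          rw [this]
          have he := Real.exp_one_lt_d9
          have : 4000 * (LL m : ℝ) ^ 2 / m * Real.exp 1 ≤ 4000 * (LL m : ℝ) ^ 2 / m * 2.75 := by
            gcongr
            linarith
          refine le_trans this ?_
          apply le_of_eq
          ring
        calc (((LL m : ℝ) * y / (5 * (m : ℝ) ^ 2)) * Real.exp 1) ^ 5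
            ≤ (11000 * (LL m : ℝ) ^ 2 / m) ^ 5 := by gcongr
          _ = (11000 ^ 5 * (LL m : ℝ) ^ 10) / (m : ℝ) ^ 5 := by
            rw [div_pow, mul_pow]
            ring
          _ ≤ ((m : ℝ) / 2) / (m : ℝ) ^ 5 := by
            gcongr
            have := hm.h7
            linarith
          _ = _ := by
            field_simp
  calc ((Nat.choose (m ^ 2) y * Nat.choose (m ^ 2) y : ℕ) : ℝ) * B
      ≤ ((m : ℝ) ^ 4) ^ y * ((1 / 2) / (m : ℝ) ^ 4) ^ y := by gcongr
    _ = (1 / 2) ^ y := by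
        rw [← mul_pow]
        congr 1
        field_simp
    _ ≤ (1 / 2) ^ 7 := by
        apply pow_le_pow_of_le_one (by norm_num) (by norm_num)
        rw [hy]
        unfold yy
        have := hm.m_ge
        have := LL_pos m
        have : 1 ≤ m * LL m := Nat.mul_pos (by omega) (by omega)
        nlinarith
    _ ≤ 1 / 100 := by norm_num

/-- existence of the second map -/
lemma exists_map (m : ℕ) (hm : Big m) : ∃ c : VV m → Fin (m ^ 2),
    (∀ j, #{u | c u = j} ≤ 8 * LL m) ∧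
    (∀ I : Finset (VV m), #I = 5 * yy m → yy m < #(I.image Prod.fst) ∨ yy m < #(I.image c)) := by
  classical
  have hm1 : 0 < m ^ 2 := by
    have := hm.m_ge
    positivity
  have : NeZero (m ^ 2) := ⟨hm1.ne'⟩
  have h1 := fibre_tail m hm
  have h2 := dense_tail m hm
  have h3 := pr_or_le (fun c : VV m → Fin (m ^ 2) => ∃ j ∈ (univ : Finset (Fin (m ^ 2))),
      8 * LL m < #{u ∈ univ | c u = j}) (fun c : VV m → Fin (m ^ 2) =>
      ∃ T ∈ ((powersetCard (yy m) (univ : Finset (Fin (m ^ 2)))) ×ˢ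
        (powersetCard (yy m) (univ : Finset (Fin (m ^ 2))))),
      ∃ I ∈ powersetCard (5 * yy m) (T.1 ×ˢ (univ : Finset (Fin (LL m)))), ∀ u ∈ I, c u ∈ T.2)
  obtain ⟨c, hc⟩ := exists_of_pr_lt (lt_of_le_of_lt h3 (by linarith))
  push Not at hc
  refine ⟨c, fun j => hc.1 j (mem_univ _), ?_⟩
  intro I hI
  by_contra hcon
  push Not at hcon
  have hcardN : yy m ≤ #(univ : Finset (Fin (m ^ 2))) := by
    rw [card_univ, Fintype.card_fin]
    exact yy_le m hm
  obtain ⟨S₁, hS₁, _, hS₁c⟩ := exists_subsuperset_card_eq (subset_univ (I.image Prod.fst))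
    hcon.1 hcardN
  obtain ⟨S₂, hS₂, _, hS₂c⟩ := exists_subsuperset_card_eq (subset_univ (I.image c))
    hcon.2 hcardN
  obtain ⟨u, hu, hu2⟩ := hc.2 (S₁, S₂) (by
    rw [mem_product, mem_powersetCard, mem_powersetCard]
    exact ⟨⟨subset_univ _, hS₁c⟩, subset_univ _, hS₂c⟩) I (by
    rw [mem_powersetCard]
    refine ⟨?_, hI⟩
    intro u hu
    rw [mem_product]
    exact ⟨hS₁ (mem_image_of_mem _ hu), mem_univ _⟩)
  exact hu2 (hS₂ (mem_image_of_mem _ hu))

end Pool.Agent.H54.Kim
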