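import Pool.Agent.H54.Kim.GF

/-!
# Row estimate: sums of squares of binomials
-/

set_option maxHeartbeats 1000000

open Finset

namespace Pool.Agent.H54.Kim

/-- `d² ≤ (2/a²) ((1+a)^d - 1)` -/
lemma sq_le_gf (d : ℕ) (a : ℝ) (ha : 0 < a) (ha1 : a ≤ 1) :
    (d : ℝ) ^ 2 ≤ 2 / a ^ 2 * ((1 + a) ^ d - 1) := by
  have h : ∀ d : ℕ, 1 + a * d + a ^ 2 * (d * (d - 1)) / 2 ≤ (1 + a) ^ d := by
    intro d
    induction d with
    | zero => simp
    | succ d ih =>
      rw [pow_succ (1 + a) d]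
      have h1 : (0 : ℝ) ≤ a ^ 3 * (d * (d - 1)) / 2 := by
        rcases Nat.eq_zero_or_pos d with rfl | hd
        · simp
        · have : (1 : ℝ) ≤ d := by exact_mod_cast hd
          have : (0 : ℝ) ≤ d - 1 := by linarith
          positivity
      have h2 : (1 + a * d + a ^ 2 * (d * (d - 1)) / 2) * (1 + a) ≤ (1 + a) ^ d * (1 + a) := by
        gcongr
      push_cast
      nlinarith
  have h3 := h d
  have h4 : (0 : ℝ) ≤ d := Nat.cast_nonneg d
  have h5 : a ^ 2 * d ^ 2 ≤ 2 * ((1 + a) ^ d - 1) := by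
    have : a ^ 2 * d ≤ a * d := by
      have : a ^ 2 ≤ a := by nlinarith
      gcongr
    nlinarith
  have ha2 : 0 < a ^ 2 := by positivity
  rw [div_mul_eq_mul_div, le_div_iff₀ ha2]
  linarith

/-- pointwise bound of `exp (θ min(d,Δ)²)` by exponentials in `d`. -/
lemma exp_sq_le (θ Δ η lam D₀ a : ℝ) (hθ : 0 ≤ θ) (hΔ : 0 ≤ Δ) (ha : 0 < a) (ha1 : a ≤ 1)
    (hη : θ * D₀ ≤ η) (hlam : θ * Δ ≤ lam) (hlam0 : 0 ≤ lam) (d : ℕ) :
    Real.exp (θ * (min (d : ℝ) Δ) ^ 2) ≤ 1 +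
      (2 * θ / a ^ 2) * (((1 + a) * Real.exp η) ^ d - (Real.exp η) ^ d)
      + Real.exp (-(lam * D₀)) * (Real.exp (2 * lam)) ^ d := by
  have hd0 : (0 : ℝ) ≤ d := Nat.cast_nonneg d
  have hm0 : 0 ≤ min (d : ℝ) Δ := le_min hd0 hΔ
  have hsecond : 0 ≤ (2 * θ / a ^ 2) * (((1 + a) * Real.exp η) ^ d - (Real.exp η) ^ d) := by
    apply mul_nonneg (by positivity)
    rw [mul_pow]
    have : (1 : ℝ) ≤ (1 + a) ^ d := one_le_pow₀ (by linarith)
    have h2 : 0 ≤ (Real.exp η) ^ d := by positivity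
    nlinarith
  by_cases h : (d : ℝ) ≤ D₀
  · have h1 : θ * (min (d : ℝ) Δ) ^ 2 ≤ θ * (d : ℝ) ^ 2 := by
      gcongr
      exact min_le_left _ _
    have h2 : θ * (d : ℝ) ^ 2 ≤ η * d := by
      calc θ * (d : ℝ) ^ 2 = θ * d * d := by ring
        _ ≤ θ * D₀ * d := by gcongr
        _ ≤ η * d := by gcongr
    have h3 : Real.exp (θ * (d : ℝ) ^ 2) ≤ 1 + θ * (d : ℝ) ^ 2 * Real.exp (θ * (d : ℝ) ^ 2) := by
      have := Real.add_one_le_exp (-(θ * (d : ℝ) ^ 2))
      have h4 : Real.exp (θ * (d : ℝ) ^ 2) * Real.exp (-(θ * (d : ℝ) ^ 2)) = 1 := by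
        rw [← Real.exp_add]; simp
      have h5 := Real.exp_pos (θ * (d : ℝ) ^ 2)
      nlinarith
    have h6 : θ * (d : ℝ) ^ 2 * Real.exp (θ * (d : ℝ) ^ 2) ≤
        θ * (2 / a ^ 2 * ((1 + a) ^ d - 1)) * Real.exp (η * d) := by
      have hsq := sq_le_gf d a ha ha1
      have h60 : θ * (d : ℝ) ^ 2 ≤ θ * (2 / a ^ 2 * ((1 + a) ^ d - 1)) :=
        mul_le_mul_of_nonneg_left hsq hθ
      have h61 : 0 ≤ θ * (d : ℝ) ^ 2 := by positivity
      exact mul_le_mul h60 (Real.exp_le_exp.2 h2) (Real.exp_pos _).le (le_trans h61 h60)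
    have h7 : θ * (2 / a ^ 2 * ((1 + a) ^ d - 1)) * Real.exp (η * d) =
        (2 * θ / a ^ 2) * (((1 + a) * Real.exp η) ^ d - (Real.exp η) ^ d) := by
      rw [mul_pow, ← Real.exp_nat_mul, mul_comm (d : ℝ) η]
      ring
    have h8 : 0 ≤ Real.exp (-(lam * D₀)) * (Real.exp (2 * lam)) ^ d := by positivity
    have h9 : Real.exp (θ * (min (d : ℝ) Δ) ^ 2) ≤ Real.exp (θ * (d : ℝ) ^ 2) :=
      Real.exp_le_exp.2 h1
    linarith
  · push Not at h
    have h1 : θ * (min (d : ℝ) Δ) ^ 2 ≤ lam * d := by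
      calc θ * (min (d : ℝ) Δ) ^ 2 = θ * (min (d : ℝ) Δ) * (min (d : ℝ) Δ) := by ring
        _ ≤ θ * Δ * d := by
          gcongr
          · exact min_le_right _ _
          · exact min_le_left _ _
        _ ≤ lam * d := by gcongr
    have h2 : Real.exp (θ * (min (d : ℝ) Δ) ^ 2) ≤
        Real.exp (-(lam * D₀)) * (Real.exp (2 * lam)) ^ d := by
      rw [← Real.exp_nat_mul, ← Real.exp_add]
      apply Real.exp_le_exp.2
      nlinarith
    linarith

/-- average over one row -/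
lemma avg_row {κ ι : Type*} [Fintype ι] [DecidableEq ι] [Fintype κ] [DecidableEq κ] [Nonempty κ]
    (S : Finset ι) (c : κ) (θ Δ η lam D₀ a p r : ℝ) (hθ : 0 ≤ θ) (hΔ : 0 ≤ Δ) (ha : 0 < a)
    (ha1 : a ≤ 1) (hη : θ * D₀ ≤ η) (hη0 : 0 ≤ η) (hlam : θ * Δ ≤ lam) (hlam0 : 0 ≤ lam)
    (hp : p = 1 / (Fintype.card κ : ℝ)) (hr : (#S : ℝ) ≤ r) (hηa : 4 * η ≤ a)
    (hpra : 2 * p * r * a ≤ 1) (ha' : 1 / a ≤ 1 + 2 * p * r) :
    avg (fun x : ι → κ => Real.exp (θ * (min (#{i ∈ S | x i = c} : ℝ) Δ) ^ 2)) ≤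
      1 + 16 * θ * (p * r + p ^ 2 * r ^ 2) +
      Real.exp (-(lam * D₀) + p * r * Real.exp (2 * lam)) := by
  have hk : (1 : ℝ) ≤ (Fintype.card κ : ℝ) := by
    have := Fintype.card_pos (α := κ)
    exact_mod_cast this
  have hp0 : 0 < p := by rw [hp]; positivity
  have hr0 : 0 ≤ r := le_trans (Nat.cast_nonneg _) hr
  have h1 : ∀ z : ℝ, 1 ≤ z → avg (fun x : ι → κ => z ^ #{i ∈ S | x i = c}) ≤
      Real.exp (p * r * (z - 1)) := by
    intro z hz
    refine le_trans (avg_gf_le S (fun _ => c) z (by linarith)) ?_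
    apply Real.exp_le_exp.2
    rw [hp]
    have : (#S : ℝ) * (z - 1) ≤ r * (z - 1) := by
      apply mul_le_mul_of_nonneg_right hr (by linarith)
    calc (#S : ℝ) * (z - 1) / (Fintype.card κ : ℝ) ≤ r * (z - 1) / (Fintype.card κ : ℝ) := by
          gcongr
      _ = _ := by ring
  have h2 : 1 ≤ avg (fun x : ι → κ => (Real.exp η) ^ #{i ∈ S | x i = c}) := by
    calc (1 : ℝ) = avg (fun _ : ι → κ => (1 : ℝ)) := (avg_const 1).symm
      _ ≤ _ := by
        apply avg_mono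
        intro x
        exact one_le_pow₀ (Real.one_le_exp hη0)
  have heη : 1 ≤ Real.exp η := Real.one_le_exp hη0
  calc avg (fun x : ι → κ => Real.exp (θ * (min (#{i ∈ S | x i = c} : ℝ) Δ) ^ 2))
      ≤ avg (fun x : ι → κ => 1 +
      (2 * θ / a ^ 2) * (((1 + a) * Real.exp η) ^ #{i ∈ S | x i = c}
          - (Real.exp η) ^ #{i ∈ S | x i = c})
      + Real.exp (-(lam * D₀)) * (Real.exp (2 * lam)) ^ #{i ∈ S | x i = c}) := by
        apply avg_mono
        intro x
        exact exp_sq_le θ Δ η lam D₀ a hθ hΔ ha ha1 hη hlam hlam0 _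
    _ = 1 + (2 * θ / a ^ 2) *
          (avg (fun x : ι → κ => ((1 + a) * Real.exp η) ^ #{i ∈ S | x i = c})
          - avg (fun x : ι → κ => (Real.exp η) ^ #{i ∈ S | x i = c}))
        + Real.exp (-(lam * D₀)) * avg (fun x : ι → κ => (Real.exp (2 * lam)) ^ #{i ∈ S | x i = c}) := by
        rw [avg_add, avg_add, avg_const_mul, avg_const_mul, avg_sub, avg_const]
    _ ≤ 1 + (2 * θ / a ^ 2) * (Real.exp (p * r * ((1 + a) * Real.exp η - 1)) - 1)
        + Real.exp (-(lam * D₀)) * Real.exp (p * r * (Real.exp (2 * lam) - 1)) := by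
        have e1 := h1 ((1 + a) * Real.exp η) (by nlinarith)
        have e2 := h1 (Real.exp (2 * lam)) (Real.one_le_exp (by linarith))
        have e3 : 0 ≤ 2 * θ / a ^ 2 := by positivity
        gcongr
    _ ≤ 1 + 16 * θ * (p * r + p ^ 2 * r ^ 2) +
      Real.exp (-(lam * D₀) + p * r * Real.exp (2 * lam)) := by
        have hη1 : η ≤ 1 / 4 := by linarith
        have e4 : Real.exp η ≤ 1 + 2 * η := by
          have := Real.exp_bound_div_one_sub_of_interval hη0 (by linarith : η < 1)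
          refine le_trans this ?_
          rw [div_le_iff₀ (by linarith)]
          nlinarith
        have e5 : (1 + a) * Real.exp η - 1 ≤ 2 * a := by
          have : (1 + a) * Real.exp η ≤ (1 + a) * (1 + 2 * η) := by gcongr
          nlinarith
        have e6 : Real.exp (p * r * ((1 + a) * Real.exp η - 1)) - 1 ≤ 4 * p * r * a := by
          have e7 : p * r * ((1 + a) * Real.exp η - 1) ≤ 2 * p * r * a := by
            calc p * r * ((1 + a) * Real.exp η - 1) ≤ p * r * (2 * a) := by gcongr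
              _ = _ := by ring
          have e8 : 0 ≤ 2 * p * r * a := by positivity
          have e9 : Real.exp (2 * p * r * a) ≤ 1 + 2 * (2 * p * r * a) := by
            have := Real.abs_exp_sub_one_le (x := 2 * p * r * a) (by rw [abs_of_nonneg e8]; exact hpra)
            rw [abs_of_nonneg e8] at this
            have h10 := le_abs_self (Real.exp (2 * p * r * a) - 1)
            linarith
          have e10 := Real.exp_le_exp.2 e7
          linarith
        have e11 : (2 * θ / a ^ 2) * (Real.exp (p * r * ((1 + a) * Real.exp η - 1)) - 1)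
            ≤ 16 * θ * (p * r + p ^ 2 * r ^ 2) := by
          calc (2 * θ / a ^ 2) * (Real.exp (p * r * ((1 + a) * Real.exp η - 1)) - 1)
              ≤ (2 * θ / a ^ 2) * (4 * p * r * a) := by gcongr
            _ = 8 * θ * (p * r) * (1 / a) := by field_simp; ring
            _ ≤ 8 * θ * (p * r) * (1 + 2 * p * r) := by gcongr
            _ ≤ _ := by nlinarith [mul_nonneg hθ (mul_nonneg hp0.le hr0)]
        have e12 : Real.exp (-(lam * D₀)) * Real.exp (p * r * (Real.exp (2 * lam) - 1)) ≤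
            Real.exp (-(lam * D₀) + p * r * Real.exp (2 * lam)) := by
          rw [← Real.exp_add]
          apply Real.exp_le_exp.2
          nlinarith [mul_nonneg hp0.le hr0]
        linarith

end Pool.Agent.H54.Kim
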