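import Pool.Agent.H54.Kim.Rows

/-!
# Tail bound for the sum over rows, and parameters
-/

set_option maxHeartbeats 1000000

open Finset

namespace Pool.Agent.H54.Kim

lemma avg_congr {Ω : Type*} [Fintype Ω] {f g : Ω → ℝ} (h : ∀ x, f x = g x) : avg f = avg g := by
  have : f = g := funext h
  rw [this]

/-- tail bound for sums over rows -/
lemma rows_tail {N q : ℕ} [NeZero q] (S : Fin N → Finset (Fin N)) (c : Fin q)
    (θ Δ η lam D₀ a p r T : ℝ) (hθ : 0 ≤ θ) (hΔ : 0 ≤ Δ) (ha : 0 < a)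
    (ha1 : a ≤ 1) (hη : θ * D₀ ≤ η) (hη0 : 0 ≤ η) (hlam : θ * Δ ≤ lam) (hlam0 : 0 ≤ lam)
    (hp : p = 1 / (q : ℝ)) (hr : ∀ v, (#(S v) : ℝ) ≤ r) (hr0 : 0 ≤ r) (hηa : 4 * η ≤ a)
    (hpra : 2 * p * r * a ≤ 1) (ha' : 1 / a ≤ 1 + 2 * p * r) :
    pr (fun h : Fin N → Fin N → Fin q =>
      T ≤ ∑ v, (min (#{j ∈ S v | h v j = c} : ℝ) Δ) ^ 2) ≤
      Real.exp (-(θ * T) + N * (16 * θ * (p * r + p ^ 2 * r ^ 2)) +
        N * Real.exp (-(lam * D₀) + p * r * Real.exp (2 * lam))) := by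
  have hp0 : 0 < p := by
    rw [hp]
    have : 0 < q := Nat.pos_of_ne_zero (NeZero.ne q)
    positivity
  have h1 : pr (fun h : Fin N → Fin N → Fin q =>
      T ≤ ∑ v, (min (#{j ∈ S v | h v j = c} : ℝ) Δ) ^ 2) ≤
      avg (fun h : Fin N → Fin N → Fin q => Real.exp (-(θ * T)) *
        ∏ v, Real.exp (θ * (min (#{j ∈ S v | h v j = c} : ℝ) Δ) ^ 2)) := by
    apply pr_le_avg
    · intro h
      positivity
    · intro h hT
      rw [← Real.exp_sum, ← Real.exp_add, ← mul_sum]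
      apply Real.one_le_exp
      have := mul_le_mul_of_nonneg_left hT hθ
      linarith
  refine le_trans h1 ?_
  rw [avg_const_mul]
  rw [avg_prod (fun v (x : Fin N → Fin q) =>
    Real.exp (θ * (min (#{j ∈ S v | x j = c} : ℝ) Δ) ^ 2))]
  set R₁ := 16 * θ * (p * r + p ^ 2 * r ^ 2) with hR₁
  set R₂ := Real.exp (-(lam * D₀) + p * r * Real.exp (2 * lam)) with hR₂
  have hR₁0 : 0 ≤ R₁ := by rw [hR₁]; positivity
  have hR₂0 : 0 ≤ R₂ := (Real.exp_pos _).le
  have h2 : ∏ v, avg (fun (x : Fin N → Fin q) =>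
      Real.exp (θ * (min (#{j ∈ S v | x j = c} : ℝ) Δ) ^ 2)) ≤ ∏ _v : Fin N, Real.exp (R₁ + R₂) := by
    apply prod_le_prod
    · intro v _
      exact avg_nonneg fun x => (Real.exp_pos _).le
    · intro v _
      have := avg_row (κ := Fin q) (S v) c θ Δ η lam D₀ a p r hθ hΔ ha ha1 hη hη0 hlam hlam0
        (by rw [hp, Fintype.card_fin]) (hr v) hηa hpra ha'
      refine le_trans this ?_
      have := Real.add_one_le_exp (R₁ + R₂)
      linarith
  rw [prod_const, card_univ, Fintype.card_fin, ← Real.exp_nat_mul] at h2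
  calc Real.exp (-(θ * T)) * ∏ v, avg (fun (x : Fin N → Fin q) =>
      Real.exp (θ * (min (#{j ∈ S v | x j = c} : ℝ) Δ) ^ 2))
      ≤ Real.exp (-(θ * T)) * Real.exp (N * (R₁ + R₂)) := by gcongr
    _ = _ := by
        rw [← Real.exp_add]
        congr 1
        ring

/-- `L` parameter -/
def LL (m : ℕ) : ℕ := Nat.log 2 m + 1

/-- size of the small sets -/
def yy (m : ℕ) : ℕ := 20000 * m * LL m

/-- inequalities valid for large `m` -/
structure Big (m : ℕ) : Prop where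
  m_ge : 10 ≤ m
  h1 : 5000 * Real.log m * LL m ≤ Real.sqrt m
  h2 : 100 * LL m * Real.exp (Real.log m / 4) + 2 * Real.log m ≤ Real.log m / 8 * Real.sqrt m
  h3 : 2 * (m : ℝ) ^ 2 * Real.exp (-(m : ℝ) / 100) ≤ 1 / 100
  h4 : 1 ≤ Real.log m
  h5 : Real.log m ≤ LL m
  h6 : (4 : ℝ) / m ^ 2 ≤ 1 / 100
  h7 : 2 * (11000 : ℝ) ^ 5 * (LL m : ℝ) ^ 10 ≤ m

/-- single-set tail bound, with the actual parameters -/
lemma set_tail (m : ℕ) (hm : Big m) [NeZero (200 * m)] (S : Fin (m ^ 2) → Finset (Fin (m ^ 2)))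
    (c : Fin (200 * m)) (r : ℕ) (hr1 : 1 ≤ r) (hr2 : r ≤ yy m) (hS : ∀ v, #(S v) ≤ r) :
    pr (fun h : Fin (m ^ 2) → Fin (m ^ 2) → Fin (200 * m) =>
      176 * ((m : ℝ) / 200 * r + 1 / 40000 * (r : ℝ) ^ 2) ≤
        ∑ v, (min (#{j ∈ S v | h v j = c} : ℝ) ((m : ℝ) / 50)) ^ 2) ≤
      Real.exp (-(4 * Real.log m * r)) := by
  have hm10 : (10 : ℝ) ≤ m := by exact_mod_cast hm.m_ge
  have hm0 : (0 : ℝ) < m := by linarith
  have hr1' : (1 : ℝ) ≤ r := by exact_mod_cast hr1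
  set ℓ := Real.log m with hℓ
  have hℓ1 : 1 ≤ ℓ := hm.h4
  set den : ℝ := (m : ℝ) / 200 + 1 / 40000 * r with hden
  have hden0 : 0 < den := by rw [hden]; positivity
  set θ : ℝ := ℓ / 32 / den with hθ
  have hθ0 : 0 ≤ θ := by rw [hθ]; positivity
  set p : ℝ := 1 / ((200 * m : ℕ) : ℝ) with hp
  have hp' : p = 1 / (200 * m) := by rw [hp]; push_cast; ring
  have hp0 : 0 < p := by rw [hp']; positivity
  have hLL1 : (1 : ℝ) ≤ LL m := by unfold LL; push_cast; linarith [Nat.cast_nonneg (α := ℝ) (Nat.log 2 m)]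
  have hr2' : (r : ℝ) ≤ 20000 * m * LL m := by
    have : (r : ℝ) ≤ (yy m : ℝ) := by exact_mod_cast hr2
    unfold yy at this
    push_cast at this
    exact this
  have hprL : 2 * p * r ≤ 200 * LL m := by
    rw [hp']
    rw [show 2 * (1 / (200 * (m : ℝ))) * r = r / (100 * m) by field_simp; ring]
    rw [div_le_iff₀ (by positivity)]
    nlinarith
  set a : ℝ := min 1 (1 / (2 * p * r)) with ha
  have hpr0 : 0 < 2 * p * r := by positivity
  have ha0 : 0 < a := by rw [ha]; exact lt_min one_pos (by positivity)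
  have ha1 : a ≤ 1 := min_le_left _ _
  set η : ℝ := θ * Real.sqrt m with hη
  have hη0 : 0 ≤ η := by rw [hη]; positivity
  set lam : ℝ := ℓ / 8 with hlam
  have hlam0 : 0 ≤ lam := by rw [hlam]; positivity
  have hθΔ : θ * ((m : ℝ) / 50) ≤ lam := by
    rw [hθ, hlam, div_mul_eq_mul_div, div_le_iff₀ hden0, hden]
    have : 0 ≤ ℓ / 8 * (1 / 40000 * (r : ℝ)) := by positivity
    nlinarith
  have hηa : 4 * η ≤ a := by
    have h1 : θ ≤ ℓ * (200 / 32) / m := by
      rw [hθ, div_le_div_iff₀ hden0 hm0, hden]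
      have : 0 ≤ ℓ * (200 / 32) * (1 / 40000 * (r : ℝ)) := by positivity
      nlinarith
    have h2 : 4 * η ≤ 25 * ℓ / Real.sqrt m := by
      have hs : 0 < Real.sqrt m := Real.sqrt_pos.2 hm0
      rw [hη, le_div_iff₀ hs]
      have h3 : Real.sqrt m * Real.sqrt m = m := Real.mul_self_sqrt hm0.le
      calc 4 * (θ * Real.sqrt m) * Real.sqrt m = 4 * θ * (Real.sqrt m * Real.sqrt m) := by ring
        _ = 4 * θ * m := by rw [h3]
        _ ≤ 4 * (ℓ * (200 / 32) / m) * m := by gcongr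
        _ = 25 * ℓ := by field_simp; ring
    have h3 : 25 * ℓ / Real.sqrt m ≤ 1 / (200 * LL m) := by
      have hs : 0 < Real.sqrt m := Real.sqrt_pos.2 hm0
      rw [div_le_div_iff₀ hs (by positivity)]
      have := hm.h1
      rw [← hℓ] at this
      nlinarith
    have h4 : 1 / (200 * (LL m : ℝ)) ≤ a := by
      rw [ha]
      apply le_min
      · rw [div_le_one (by positivity)]
        linarith
      · exact one_div_le_one_div_of_le hpr0 hprL
    linarith
  have hpra : 2 * p * r * a ≤ 1 := by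
    calc 2 * p * r * a ≤ 2 * p * r * (1 / (2 * p * r)) := by
          apply mul_le_mul_of_nonneg_left (min_le_right _ _) hpr0.le
      _ = 1 := by field_simp
  have ha' : 1 / a ≤ 1 + 2 * p * r := by
    rw [div_le_iff₀ ha0, ha]
    rcases le_total 1 (1 / (2 * p * r)) with h | h
    · rw [min_eq_left h]; linarith
    · rw [min_eq_right h]
      have : (1 + 2 * p * r) * (1 / (2 * p * r)) = 1 / (2 * p * r) + 1 := by
        field_simp
      rw [this]
      have : 0 < 1 / (2 * p * r) := by positivity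
      linarith
  have hr0 : (0 : ℝ) ≤ r := by linarith
  have key := rows_tail (N := m ^ 2) (q := 200 * m) S c θ ((m : ℝ) / 50) η lam (Real.sqrt m) a p r
    (176 * ((m : ℝ) / 200 * r + 1 / 40000 * (r : ℝ) ^ 2)) hθ0 (by positivity) ha0 ha1 le_rfl hη0
    hθΔ hlam0 hp (fun v => by exact_mod_cast hS v) hr0 hηa hpra ha'
  refine le_trans key ?_
  apply Real.exp_le_exp.2
  have e1 : θ * (176 * ((m : ℝ) / 200 * r + 1 / 40000 * (r : ℝ) ^ 2)) = 176 * (ℓ / 32 * r) := by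
    rw [hθ]
    rw [show (m : ℝ) / 200 * r + 1 / 40000 * (r : ℝ) ^ 2 = den * r by rw [hden]; ring]
    field_simp
  have e2 : ((m ^ 2 : ℕ) : ℝ) * (16 * θ * (p * r + p ^ 2 * (r : ℝ) ^ 2)) = 16 * (ℓ / 32 * r) := by
    have : ((m ^ 2 : ℕ) : ℝ) * (p * r + p ^ 2 * (r : ℝ) ^ 2) = den * r := by
      rw [hp', hden]
      push_cast
      field_simp
      ring
    calc ((m ^ 2 : ℕ) : ℝ) * (16 * θ * (p * r + p ^ 2 * (r : ℝ) ^ 2))
        = 16 * θ * (((m ^ 2 : ℕ) : ℝ) * (p * r + p ^ 2 * (r : ℝ) ^ 2)) := by ring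
      _ = 16 * θ * (den * r) := by rw [this]
      _ = _ := by
        rw [hθ]
        field_simp
  have e3 : ((m ^ 2 : ℕ) : ℝ) * Real.exp (-(lam * Real.sqrt m) + p * r * Real.exp (2 * lam)) ≤ 1 := by
    have h1 : ((m ^ 2 : ℕ) : ℝ) = Real.exp (2 * ℓ) := by
      push_cast
      rw [two_mul, Real.exp_add, hℓ, Real.exp_log hm0]
      ring
    rw [h1, ← Real.exp_add]
    rw [← Real.exp_zero]
    apply Real.exp_le_exp.2
    have h2 := hm.h2
    rw [← hℓ] at h2
    have h3 : Real.exp (2 * lam) = Real.exp (ℓ / 4) := by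
      congr 1
      rw [hlam]; ring
    rw [h3]
    have h5 : p * r ≤ 100 * LL m := by linarith
    have h4 : p * r * Real.exp (ℓ / 4) ≤ 100 * LL m * Real.exp (ℓ / 4) :=
      mul_le_mul_of_nonneg_right h5 (Real.exp_pos _).le
    rw [hlam]
    linarith
  rw [e1, e2]
  have : ℓ ≤ ℓ * r := by nlinarith
  nlinarith

end Pool.Agent.H54.Kim
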